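import Pool.Agent.Helper51.PP.GEN
import Pool.Agent.Helper81.PP.REP
import Pool.Agent.Helper64.PP.CRT
import Pool.Agent.Helper87.PP.HLG
import Pool.Agent.Helper32.PP.EXP
import Pool.Agent.Helper95.PP.CNT
import Pool.Agent.Helper19.PP.MOD
import Pool.Agent.Helper2.PP.FIB
import Pool.Agent.Helper54.PP.BL1
import Pool.Agent.Helper50.PP.BL2

/-!
# Project PP, part A2, assembly: the bilinear bounds without hypotheses
-/

namespace Pool.Agent.Helper51.PP

/-- The bilinear bound for a system of characters. -/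
theorem gen : A2_GEN :=
  a2_gen Pool.Agent.Helper81.PP.a2_rep Pool.Agent.Helper64.PP.a2_crt Pool.Agent.Helper87.PP.a2_hlg
    (Pool.Agent.Helper32.PP.a2_exp Pool.Agent.Helper95.PP.a2_cnt) Pool.Agent.Helper19.PP.a2_mod
    Pool.Agent.Helper2.PP.a2_fib

/-- The field `bl₁`. -/
theorem bl1 : A2_BL1 := Pool.Agent.Helper54.PP.a2_bl1 gen

/-- The field `bl₂`. -/
theorem bl2 : A2_BL2 := Pool.Agent.Helper50.PP.a2_bl2 gen

end Pool.Agent.Helper51.PP
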