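import Pool.Agent.Helper51.PP.GoalsA2
import Pool.Agent.Helper17.PP.Defs

/-!
# Project PP (MP_fc6b1e_nt, density theorem), part A2, second file: the bilinear bounds `bl₁`, `bl₂` of
`Sys.Hyp` from a system of ray class characters

`𝔪₀` is a fixed ideal of the number field `F`, `nn q` the modulus of the lower prime `q` (the prime `v` of
`K` below, extended to `F`), `X q` the character attached to the lower prime `q`, `W q` the prime of `F`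
attached to the upper prime `q`, of the same norm as `q`. The character of a finite set `D` is
`X_D = ∏_{q ∈ D} X_q`, modulo `𝔪_D = ∏_{q ∈ D} 𝔪₀ nn(q)`.
-/

namespace Pool.Agent.Helper51.PP

open NumberField IsDedekindDomain Finset
open Pool.Agent.Helper17.PP (Sys)

/-- A system of characters on the ideals of `F`: `Up` = the upper primes, `Lo` = the lower primes. -/
structure Chs {p : ℕ} {B B₀ k U Λ C : Type} [Field k] [AddCommGroup U] [Module k U]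
    [AddCommGroup Λ] [Module k Λ] [AddCommGroup C] (S : Sys p B B₀ k U Λ C) (F : Type) [Field F]
    [NumberField F] (𝔪₀ : Ideal (𝓞 F)) (nn : B → Ideal (𝓞 F)) (d : ℕ) (Up Lo : Set B)
    (W : B → HeightOneSpectrum (𝓞 F)) (X : B → Ideal (𝓞 F) → ℂ) : Prop where
  m0 : 𝔪₀ ≠ ⊥
  inj : Set.InjOn W Up
  nW : ∀ q ∈ Up, Ideal.absNorm (W q).asIdeal = S.N q
  nne : ∀ q ∈ Lo, nn q ≠ ⊥ ∧ nn q ≠ ⊤ ∧ Ideal.absNorm (nn q) ≤ S.N q ^ d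
  cop₀ : ∀ q ∈ Lo, nn q ⊔ 𝔪₀ = ⊤
  cop : ∀ q ∈ Lo, ∀ q' ∈ Lo, S.bs q ≠ S.bs q' → nn q ⊔ nn q' = ⊤
  rc : ∀ q ∈ Lo, RC (𝔪₀ * nn q) (X q)
  nt : ∀ q ∈ Lo, ∃ α : 𝓞 F, α - 1 ∈ 𝔪₀ ∧ Ideal.span {α} ⊔ nn q = ⊤ ∧ X q (Ideal.span {α}) ≠ 1

/-- **A2_LSG** (large sieve with a Schur bound). As `A2_LS`, with the hypothesis
`∑_j' |∑_n χ_j(n) conj χ_j'(n) w(n)| ≤ M` for every `j`: then
`∑_j |∑_{n ∈ S} a_n χ_j(n)|² ≤ κ M ∑_{n ∈ S} |a_n|²`.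

PROOF. As `A2_LS` (file `Pool/Agent/Helper51/PP/LS.lean`); the quadratic form is bounded with
`|g_j g_j'| ≤ (|g_j|² + |g_j'|²)/2` and the symmetry of `|c_jj'|`. -/
def A2_LSG : Prop :=
  ∀ (I J : Type) [Fintype J] (w : I → ℝ) (χ : J → I → ℂ) (M κ : ℝ),
    (∀ n, 0 ≤ w n) → Summable w → 0 ≤ M → 0 ≤ κ → (∀ j n, ‖χ j n‖ ≤ 1) →
    (∀ j, ∑ j', ‖∑' n, χ j n * (starRingEnd ℂ) (χ j' n) * (w n : ℂ)‖ ≤ M) →
    ∀ (S : Finset I) (a : I → ℂ), (∀ n ∈ S, 1 ≤ κ * w n) →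
      ∑ j, ‖∑ n ∈ S, a n * χ j n‖ ^ 2 ≤ κ * M * ∑ n ∈ S, ‖a n‖ ^ 2

/-- **A2_PWG** (`2r`-th moments). As `A2_POW` with the hypothesis of `A2_LSG`; the bound is
`κ M r! |Q|^r`.

PROOF (from `A2_LSG`, `A2_REP`). As `A2_POW` (file `Pool/Agent/Helper51/PP/POW.lean`). -/
def A2_PWG : Prop :=
  ∀ (F : Type) [Field F] [NumberField F] (J : Type) [Fintype J] (w : Ideal (𝓞 F) → ℝ)
    (χ : J → Ideal (𝓞 F) → ℂ) (M κ : ℝ) (r : ℕ) (Q : Finset (HeightOneSpectrum (𝓞 F)))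
    (a : HeightOneSpectrum (𝓞 F) → ℂ),
    (∀ n, 0 ≤ w n) → Summable w → 0 ≤ M → 0 ≤ κ → (∀ j n, ‖χ j n‖ ≤ 1) →
    (∀ j, χ j ⊤ = 1) → (∀ j m n, χ j (m * n) = χ j m * χ j n) →
    (∀ j, ∑ j', ‖∑' n, χ j n * (starRingEnd ℂ) (χ j' n) * (w n : ℂ)‖ ≤ M) →
    (∀ v : Fin r → HeightOneSpectrum (𝓞 F), (∀ i, v i ∈ Q) →
      1 ≤ κ * w (∏ i, (v i).asIdeal)) →
    (∀ q ∈ Q, ‖a q‖ ≤ 1) →
      ∑ j, ‖∑ q ∈ Q, a q * χ j q.asIdeal‖ ^ (2 * r) ≤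
        κ * M * r.factorial * (Q.card : ℝ) ^ r

/-- **A2_HLG** (Hoelder, weights bounded by `b_j ≥ 1`). If `|β_j| ≤ b_j`, `b_j ≥ 1`, `∑_j b_j² ≤ T` and
`∑_j |S_j|^(2r) ≤ M`, `r ≥ 1`, then `|∑_j β_j S_j| ≤ T^(1 - 1/(2r)) M^(1/(2r))`.

PROOF. Hoelder with the exponents `s = 2r/(2r-1) ∈ (1, 2]` and `2r`; `|β_j|^s ≤ b_j^s ≤ b_j²`. -/
def A2_HLG : Prop :=
  ∀ (J : Type) [Fintype J] (β S : J → ℂ) (b : J → ℝ) (r : ℕ) (T M : ℝ), 1 ≤ r →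
    (∀ j, 1 ≤ b j ∧ ‖β j‖ ≤ b j) → ∑ j, b j ^ 2 ≤ T → ∑ j, ‖S j‖ ^ (2 * r) ≤ M →
      ‖∑ j, β j * S j‖ ≤ T ^ (1 - 1 / (2 * (r : ℝ))) * M ^ (1 / (2 * (r : ℝ)))

/-- **A2_MOD** (sums over moduli). If `∑_{q in block j} 1/N(q) ≤ K₀/j` for `j ≥ 1` then, for every `A ≥ 0`,
`∑_{D ∈ mods i} A^|D| ≤ K 2^i (i+1)^K`.

PROOF. `nm D < 2^(i+1)` for `D ∈ mods i`, so the sum is at most
`2^(i+1) ∑_{D ⊆ upto(2^(i+1))} ∏_{q ∈ D} (A/N(q)) = 2^(i+1) ∏ (1 + A/N(q)) ≤ 2^(i+1) exp(A ∑ 1/N(q))`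
(`Finset.prod_one_add`), the sum over `q ∈ upto(2^(i+1))`; these `q` are in the blocks `1, ..., i+1`
(block `0` is empty because `N(q) ≥ 2`), so `∑ 1/N(q) ≤ K₀ ∑_{b=1}^{i+1} 1/b ≤ K₀ (1 + log(i+1))`.
Take `K ≥ 2 exp(A K₀)`, `K ≥ A K₀`. -/
def A2_MOD : Prop :=
  ∀ (p : ℕ) (B B₀ k U Λ C : Type) [Field k] [AddCommGroup U] [Module k U]
    [AddCommGroup Λ] [Module k Λ] [AddCommGroup C] (S : Sys p B B₀ k U Λ C) (K₀ : ℕ),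
    (∀ j : ℕ, 1 ≤ j → ∑ q ∈ S.blk j, (1 : ℝ) / S.N q ≤ K₀ / j) → ∀ A : ℝ, 0 ≤ A →
    ∃ K : ℕ, ∀ i : ℕ, ∑ D ∈ S.mods i, A ^ D.card ≤ K * 2 ^ i * ((i : ℝ) + 1) ^ K

open Classical in
/-- **A2_FIB** (labellings of the same base set). Suppose at most `ℓ` elements of `B` have the same base.
There is `C` such that for every `i`, `D ∈ mods i` and every finite set `𝒟` of finite sets `D'`, `bs`
injective on `D'`, `bs(D') = bs(D)`: `|𝒟| ≤ C 2^(i/4)`.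

PROOF. We may assume `ℓ ≥ 1`. `D'` is determined by the function which assigns to `b ∈ bs(D)` the element
of `D'` above `b`, so `|𝒟| ≤ ℓ^|bs(D)| ≤ ℓ^|D|` (inject `𝒟` into `Finset.pi`/`Fintype.piFinset` of the
fibres). Let `A = max 2 ℓ^4`, `n = |upto A|`; the elements of `D` outside `upto A` have norm `> A`, so
`A^(|D| - n) ≤ nm D < 2^(i+1)` (natural subtraction), and `ℓ^|D| ≤ ℓ^n ℓ^(|D| - n)
≤ ℓ^n (A^(|D|-n))^(1/4) ≤ ℓ^n 2^((i+1)/4)`. -/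
def A2_FIB : Prop :=
  ∀ (p : ℕ) (B B₀ k U Λ C : Type) [Field k] [AddCommGroup U] [Module k U]
    [AddCommGroup Λ] [Module k Λ] [AddCommGroup C] (S : Sys p B B₀ k U Λ C) (ℓ : ℕ),
    (∀ b₀ : B₀, {q | S.bs q = b₀}.Finite ∧ {q | S.bs q = b₀}.ncard ≤ ℓ) →
    ∃ K : ℝ, 0 < K ∧ ∀ (i : ℕ) (D : Finset B) (𝒟 : Finset (Finset B)), D ∈ S.mods i →
      (∀ D' ∈ 𝒟, Set.InjOn S.bs (D' : Set B) ∧ D'.image S.bs = D.image S.bs) →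
      (𝒟.card : ℝ) ≤ K * (2 : ℝ) ^ ((i : ℝ) / 4)

/-- **A2_CRT** (different sets have different characters). Let `D, D' ⊆ Lo` be finite, `bs` injective on
both, `bs(D) ≠ bs(D')`. There is `α ≠ 0` prime to `𝔪_D 𝔪_D'` with `X_D((α)) ≠ X_D'((α))`. If `D` is not
empty then `X_D` is a ray class character modulo `𝔪_D`.

PROOF. The second statement: products of ray class characters (induction; `𝔪_D ≠ ⊥`; an ideal prime to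
the product of the moduli is prime to each; if it is not prime to the product it is not prime to one of
them, and then that factor is zero). First statement: by symmetry there is `q₀ ∈ D` with
`bs q₀ ∉ bs(D')`. Let `α₀` be given by `nt q₀`. By the Chinese remainder theorem there is `α` with
`α ≡ α₀ mod 𝔪₀ nn(q₀)` and `α ≡ 1 mod nn(q)` for all `q ∈ (D ∪ D') ∖ {q₀}`: these `q` have
`bs q ≠ bs q₀`, so `nn q` is coprime to `nn q₀`; `nn q` is coprime to `𝔪₀`; choose `e` with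
`e ≡ 0 mod 𝔪₀ nn(q₀)`, `e ≡ 1 mod ∏ nn(q)` (the product over `q ∈ (D ∪ D') ∖ {q₀}` is coprime to
`𝔪₀ nn(q₀)`), `α = α₀ (1 - e) + e`. Then `α ≡ α₀ ≡ 1 mod 𝔪₀`, so `α ≡ 1 mod 𝔪₀ nn(q)` for
`q ≠ q₀` (`𝔪₀ nn(q) = 𝔪₀ ∩ nn(q)` by coprimality), hence `X_q((α)) = 1`; `α` is prime to `nn(q₀)`, as
`α₀` is, in particular `α ≠ 0`; `X_{q₀}((α)) = X_{q₀}((α₀)) ≠ 1` since `α ≡ α₀ mod 𝔪₀ nn(q₀)` and both are
prime to it (choose `β ≠ 0` with `β α₀ ≡ 1 mod 𝔪₀ nn(q₀)`: `X((β α₀)) = 1 = X((β α))`). So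
`X_D((α)) = X_{q₀}((α₀)) ≠ 1 = X_D'((α))`. -/
def A2_CRT : Prop :=
  ∀ (p : ℕ) (B B₀ k U Λ C : Type) [Field k] [AddCommGroup U] [Module k U]
    [AddCommGroup Λ] [Module k Λ] [AddCommGroup C] (S : Sys p B B₀ k U Λ C) (F : Type) [Field F]
    [NumberField F] (𝔪₀ : Ideal (𝓞 F)) (nn : B → Ideal (𝓞 F)) (d : ℕ) (Up Lo : Set B)
    (W : B → HeightOneSpectrum (𝓞 F)) (X : B → Ideal (𝓞 F) → ℂ),
    Chs S F 𝔪₀ nn d Up Lo W X →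
    (∀ D : Finset B, (∀ q ∈ D, q ∈ Lo) → D.Nonempty →
      RC (∏ q ∈ D, (𝔪₀ * nn q)) (fun I ↦ ∏ q ∈ D, X q I)) ∧
    ∀ D D' : Finset B, (∀ q ∈ D, q ∈ Lo) → (∀ q ∈ D', q ∈ Lo) →
      Set.InjOn S.bs (D : Set B) → Set.InjOn S.bs (D' : Set B) →
      S.bs '' (D : Set B) ≠ S.bs '' (D' : Set B) →
      ∃ α : 𝓞 F, α ≠ 0 ∧
        Ideal.span {α} ⊔ (∏ q ∈ D, (𝔪₀ * nn q)) * ∏ q ∈ D', (𝔪₀ * nn q) = ⊤ ∧
        ∏ q ∈ D, X q (Ideal.span {α}) ≠ ∏ q ∈ D', X q (Ideal.span {α})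

open Classical in
/-- **A2_GEN** (bilinear bound). Let `F` satisfy `UniB`, `S` the bound of Chebyshev and at most `ℓ` elements
of `B` have the same base. For all `A ≥ 1`, `𝔪₀`, `d` there is `K` such that for every system of
characters (with any `Up`, `Lo`, `nn`, `W`, `X`):
`|∑_{q ∈ Up, q in block j} ∑_{D ∈ mods i} α_q β_D X_D(W q) exp(-N(q) nm(D)/Y)|
≤ K 2^(i+j) (i+1)^K 2^(-min(i,j)/K) exp(-2^(i+j)/(2Y))`
for `j ≥ 1`, `Y > 0`, `|α_q| ≤ 1`, `|β_D| ≤ A^|D|`, `β_D = 0` unless `D ⊆ Lo` and `bs` is injective on `D`.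

PROOF (from `A2_PWG`, `A2_HLG`, `A2_CNT`, `A2_EXP`, `A2_MOD`, `A2_FIB`, `A2_CRT`). `N(q) ≥ 2^j`,
`nm D ≥ 2^i`. By `A2_MOD` with `A²` (and with `1`): `∑_{D ∈ mods i} A^(2|D|) ≤ T_i = K₁ 2^i (i+1)^K₁`,
`|mods i| ≤ T_i`; the number of `q` in block `j` is at most `2^(j+1) K₀/j ≤ 2^(j+1) K₀` by Chebyshev. If
`i = 0` then `mods 0 = {∅}` and the bound is trivial. Let `i ≥ 1` and let `J` be the set of the
`D ∈ mods i` with `D ⊆ Lo`, `bs` injective on `D` (they are not empty).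

*No weight.* Let `Q` be a finite set of elements of `Up` with `N(q) ≤ 2^(j+1)` in block `j`. CLAIM:
`|∑_{D ∈ J} ∑_{q ∈ Q} α_q β_D X_D(W q)| ≤ K₂ 2^(i+j) (i+1)^K₂ 2^(-min(i,j)/K₂)` whenever
`|β_D| ≤ A^|D|`. Let `c, C₁` be from `UniB`, `Z = (2^(j+1))^r`, `w(I) = exp(-N(I)/Z)`. For `D, D' ∈ J` with
different base sets `X_D conj X_D'` is a ray class character modulo `𝔪_D 𝔪_D'` (`RC.ratio` in
`Pool/Agent/Helper51/PP/BIL.lean`) not trivial on principal ideals (`A2_CRT`), and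
`N(𝔪_D) ≤ N(𝔪₀)^|D| (nm D)^d ≤ 2^(C₂ (i+1))` (`|D| ≤ i + 1` because `N ≥ 2`), so the correlation is at
most `E = C₁ 2^(2 C₂ C₁ (i+1)) Z^(1-c)`; if the base sets are equal it is at most
`H = ∑_I w(I) ≤ (C₃ + 1) Z` (`A2_EXP`), and by `A2_FIB` this happens for at most `K₃ 2^(i/4)` sets `D'`.
So the hypothesis of `A2_PWG` holds with `M = K₃ 2^(i/4) (C₃ + 1) Z + |J| E`. As `|J| ≤ T_i`, there is
`C' ≥ 1` (depending only on the constants) such that `Z ≥ 2^(C' i)` implies `|J| E ≤ C₄ Z`. Let `r` be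
the least integer `≥ 1` with `(j+1) r ≥ C' i`. Products of `r` primes of norm `≤ 2^(j+1)` have norm
`≤ Z`, `κ = e`. So with `S_D = ∑_{q ∈ Q} α_q X_D(W q)` (a sum over the set of primes `W(Q)`, `W` is
injective on `Up`): `∑_{D ∈ J} |S_D|^(2r) ≤ e C₅ 2^(i/4) (2^(j+1))^r r! (2^(j+1) K₀)^r`, the `2r`-th root
is at most `C₆ 2^(i/(8r)) 2^j r^(1/2)`, and by `A2_HLG` with `T = T_i`, `b_D = A^|D|`:
`|∑_D β_D S_D| ≤ T_i 2^(-i/(2r)) C₆ 2^(i/(8r)) 2^j r^(1/2)` (`T_i ≥ 2^i`). If `r = 1`: the saving is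
`2^(-3i/8)`. If `r ≥ 2`: `(r-1)(j+1) < C' i`, so `i/r ≥ (j+1)/(2C')`, the saving is at least
`2^(-3(j+1)/(16C'))`, and `r ≤ 1 + C' i`. This proves the claim.

*Weight.* `ρ = 1/Y`. For `q` in block `j`, `v = nm D`: with `T = 2^(j+1)`,
`exp(-ρ N(q) v) = ∑_{t = N(q)}^{T-1} (exp(-ρ t v) - exp(-ρ (t+1) v)) + exp(-ρ T v)`. So the sum is
`∑_{t = 2^j}^{T-1} ∑_D β_D w_t(D) ∑_{q : N(q) ≤ t} ... + ∑_D β_D exp(-ρ T v_D) ∑_q ...` with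
`0 ≤ w_t(D) = exp(-ρ t v)(1 - exp(-ρ v)) ≤ W_t = exp(-ρ t 2^i) min(1, ρ 2^(i+1))`; apply the claim to
`β_D w_t(D)/W_t`: the total is at most `(∑_t W_t + exp(-ρ 2^(i+j))) K₂ ...` and
`∑_{t ≥ 2^j} W_t ≤ exp(-ρ 2^(i+j)) min(1, 2x)/(1 - e^(-x)) ≤ 4 exp(-ρ 2^(i+j))`, `x = ρ 2^i`. -/
def A2_GEN : Prop :=
  ∀ (p : ℕ) (B B₀ k U Λ C : Type) [Field k] [AddCommGroup U] [Module k U]
    [AddCommGroup Λ] [Module k Λ] [AddCommGroup C] (S : Sys p B B₀ k U Λ C) (F : Type) [Field F]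
    [NumberField F], UniB F → ∀ (K₀ ℓ : ℕ) (A : ℝ), 1 ≤ A →
    (∀ j : ℕ, 1 ≤ j → ∑ q ∈ S.blk j, (1 : ℝ) / S.N q ≤ K₀ / j) →
    (∀ b₀ : B₀, {q | S.bs q = b₀}.Finite ∧ {q | S.bs q = b₀}.ncard ≤ ℓ) →
    ∀ (𝔪₀ : Ideal (𝓞 F)) (d : ℕ), ∃ K : ℕ, 1 ≤ K ∧
    ∀ (nn : B → Ideal (𝓞 F)) (Up Lo : Set B)
      (W : B → HeightOneSpectrum (𝓞 F)) (X : B → Ideal (𝓞 F) → ℂ),
    Chs S F 𝔪₀ nn d Up Lo W X →
    ∀ (i j : ℕ) (α : B → ℂ) (β : Finset B → ℂ) (Y : ℝ), 1 ≤ j → 0 < Y → (∀ q, ‖α q‖ ≤ 1) →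
    (∀ D, ‖β D‖ ≤ A ^ D.card) →
    (∀ D, β D ≠ 0 → Set.InjOn S.bs (D : Set B) ∧ ∀ q ∈ D, q ∈ Lo) →
    ‖∑ q ∈ S.blk j with q ∈ Up, ∑ D ∈ S.mods i, α q * β D * (∏ q' ∈ D, X q' (W q).asIdeal) *
      (Real.exp (-(S.N q * S.nm D / Y)) : ℂ)‖ ≤
      K * 2 ^ (i + j) * (i + 1) ^ K * (2 : ℝ) ^ (-(min i j : ℝ) / K) *
        Real.exp (-((2 : ℝ) ^ (i + j) / (2 * Y)))

open Classical in
/-- **A2_BL1** (the field `bl₁` of `Sys.Hyp`). Data (from part B): a finite label set `E`, `lab : B → E`,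
for the parameters `y, c, t, e` a function `Xd q y c t e` on the ideals of `F`, such that for all
functions `y, c : B → k`, `t ≠ 0` and `e` the characters `X q = Xd q (y q) (c q) t e` form a system with
`Up` = the split primes with label `e`, `Lo` = the split primes with `y q ≠ 0`, and the value of
`Xd q' y c t e` at `W q` is `ψ(y (t a(q', q) + c kap(q', q)))` for split `q, q'` with different bases, `q` of
label `e`.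

PROOF (from `A2_GEN`, `A = Q = |k|`). Split the sum over the `q` in block `j` by their label `e` (`|E|`
classes) and apply `A2_GEN` to each, with the same `α`, `β`. For `D` with `β_D ≠ 0` all elements are split,
with `y ≠ 0`, in blocks different from `j`, so their bases are different from that of `q` (`bsN`), and
`∏_{q' ∈ D} X_{q'}(W q) = chr ψ D y c t q`. Constant `|E| K`, enlarged: the bound
`K 2^(i+j) (i+1)^K 2^(-min(i,j)/K)` is monotone in `K`. -/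
def A2_BL1 : Prop :=
  ∀ (p : ℕ) (B B₀ k U Λ C : Type) [Field k] [Fintype k] [AddCommGroup U] [Module k U]
    [AddCommGroup Λ] [Module k Λ] [AddCommGroup C] [Algebra (ZMod p) k] (S : Sys p B B₀ k U Λ C)
    (ψ : AddChar k ℂ) (F : Type) [Field F] [NumberField F], UniB F → ∀ (K₀ ℓ : ℕ),
    (∀ j : ℕ, 1 ≤ j → ∑ q ∈ S.blk j, (1 : ℝ) / S.N q ≤ K₀ / j) →
    (∀ b₀ : B₀, {q | S.bs q = b₀}.Finite ∧ {q | S.bs q = b₀}.ncard ≤ ℓ) →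
    ∀ (E : Type) [Fintype E] (lab : B → E) (𝔪₀ : Ideal (𝓞 F)) (nn : B → Ideal (𝓞 F)) (d : ℕ)
      (W : B → HeightOneSpectrum (𝓞 F)) (Xd : B → k → k → k → E → Ideal (𝓞 F) → ℂ),
    (∀ (y c : B → k) (t : k) (e : E), t ≠ 0 →
      Chs S F 𝔪₀ nn d {q | S.spl q ∧ lab q = e} {q | S.spl q ∧ y q ≠ 0} W
        (fun q ↦ Xd q (y q) (c q) t e)) →
    (∀ (y c t : k) (q q' : B), S.spl q → S.spl q' → S.bs q ≠ S.bs q' →
      Xd q' y c t (lab q) (W q).asIdeal =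
        ψ (y * (t * S.a q' q + c * algebraMap (ZMod p) k (S.kap q' q)))) →
    ∃ K : ℕ, 1 ≤ K ∧
    ∀ (i j : ℕ) (t : k) (y c : B → k) (α : B → ℂ) (β : Finset B → ℂ) (Y : ℝ), 1 ≤ j →
    t ≠ 0 → 0 < Y → (∀ q, ‖α q‖ ≤ 1) → (∀ D, ‖β D‖ ≤ (Fintype.card k : ℝ) ^ D.card) →
    (∀ D, β D ≠ 0 → Set.InjOn S.bs (D : Set B) ∧ ∀ q ∈ D, S.spl q ∧ S.bl q ≠ j ∧ y q ≠ 0) →
    ‖∑ q ∈ S.blk j with S.spl q, ∑ D ∈ S.mods i, α q * β D * S.chr ψ D y c t q *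
      (Real.exp (-(S.N q * S.nm D / Y)) : ℂ)‖ ≤
      K * 2 ^ (i + j) * (i + 1) ^ K * (2 : ℝ) ^ (-(min i j : ℝ) / K) *
        Real.exp (-((2 : ℝ) ^ (i + j) / (2 * Y)))

open Classical in
/-- **A2_BL2** (the field `bl₂` of `Sys.Hyp`). Data (from part B): labels as before, `Xd q s e` on the ideals
of `F` (here `F = K₁`), such that for all `s ≠ 0` and `e` the `Xd q s e` form a system with `Up` = the
primes which are not split, of label `e`, `Lo` = the split primes, and `Xd q s (lab P) (W P) = ψ₁(s kap(q, P))`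
for `q` split, `P` not split.

PROOF (from `A2_GEN`, `A = 1`). Apply `A2_GEN` with the variable `P` in block `i` (`GEN`'s `j` is `i`), the
moduli `D = {q}`, `q` in block `j` (`GEN`'s `i` is `j`), `β_{{q}} = β_q` if `q` is split and in block `j`, `0` for
all other `D`; `nm {q} = N(q)`, `{q} ∈ mods j` if and only if `q` is in block `j`, `bs` is injective on
`{q}`; split by the label of `P`. The factor `(j+1)^K` is at most `(i+j)^K` because `i ≥ 1`. -/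
def A2_BL2 : Prop :=
  ∀ (p : ℕ) (B B₀ k U Λ C : Type) [Field k] [AddCommGroup U] [Module k U]
    [AddCommGroup Λ] [Module k Λ] [AddCommGroup C] (S : Sys p B B₀ k U Λ C)
    (ψ₁ : AddChar (ZMod p) ℂ) (F : Type) [Field F] [NumberField F], UniB F → ∀ (K₀ ℓ : ℕ),
    (∀ j : ℕ, 1 ≤ j → ∑ q ∈ S.blk j, (1 : ℝ) / S.N q ≤ K₀ / j) →
    (∀ b₀ : B₀, {q | S.bs q = b₀}.Finite ∧ {q | S.bs q = b₀}.ncard ≤ ℓ) →
    ∀ (E : Type) [Fintype E] (lab : B → E) (𝔪₀ : Ideal (𝓞 F)) (nn : B → Ideal (𝓞 F)) (d : ℕ)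
      (W : B → HeightOneSpectrum (𝓞 F)) (Xd : B → ZMod p → E → Ideal (𝓞 F) → ℂ),
    (∀ (s : ZMod p) (e : E), s ≠ 0 →
      Chs S F 𝔪₀ nn d {P | ¬ S.spl P ∧ lab P = e} {q | S.spl q} W (fun q ↦ Xd q s e)) →
    (∀ (s : ZMod p) (q P : B), S.spl q → ¬ S.spl P →
      Xd q s (lab P) (W P).asIdeal = ψ₁ (s * S.kap q P)) →
    ∃ K : ℕ, 1 ≤ K ∧
    ∀ (i j : ℕ) (s : ZMod p) (α β : B → ℂ) (Y : ℝ), 1 ≤ i → 1 ≤ j → s ≠ 0 → 0 < Y →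
    (∀ q, ‖α q‖ ≤ 1) → (∀ q, ‖β q‖ ≤ 1) →
    ‖∑ P ∈ S.blk i with ¬ S.spl P, ∑ q ∈ S.blk j with S.spl q, α P * β q *
      ψ₁ (s * S.kap q P) * (Real.exp (-((S.N q : ℝ) * S.N P / Y)) : ℂ)‖ ≤
      K * 2 ^ (i + j) * (i + j) ^ K * (2 : ℝ) ^ (-(min i j : ℝ) / K) *
        Real.exp (-((2 : ℝ) ^ (i + j) / (2 * Y)))

end Pool.Agent.Helper51.PP
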