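import Mathlib

/-!
# Project PP (MP_fc6b1e_nt, density theorem), part A2: bilinear sums over primes and moduli

Abstract large sieve, powers of sums over primes, Hoelder's inequality with unbounded exponent, number
field version for ray class characters of many moduli, separation of the weight `exp(-ρ N(q) v)`.
The uniform bound `UniB` for the exponential sums of a ray class character is part A1.
-/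

namespace Pool.Agent.Helper51.PP

open NumberField IsDedekindDomain

/-- `χ` is a ray class character modulo the ideal `𝔪` (no condition at the infinite places, possibly
trivial), extended by zero. -/
structure RC {F : Type} [Field F] [NumberField F] (𝔪 : Ideal (𝓞 F)) (χ : Ideal (𝓞 F) → ℂ) :
    Prop where
  ne : 𝔪 ≠ ⊥
  zero : χ ⊥ = 0
  mul : ∀ I J, χ (I * J) = χ I * χ J
  cop : ∀ I, I ≠ ⊥ → I ⊔ 𝔪 = ⊤ → ‖χ I‖ = 1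
  ncop : ∀ I, I ≠ ⊥ → I ⊔ 𝔪 ≠ ⊤ → χ I = 0
  ray : ∀ α : 𝓞 F, α ≠ 0 → α - 1 ∈ 𝔪 → χ (Ideal.span {α}) = 1

/-- The uniform bound (part A1): for every ray class character `χ` modulo `𝔪` which is not trivial on
the principal ideals prime to `𝔪`, `|∑_I χ(I) exp(-N(I)/Z)| ≤ C N(𝔪)^C Z^(1-c)` for all `Z ≥ 1`. -/
def UniB (F : Type) [Field F] [NumberField F] : Prop :=
  ∃ c C : ℝ, 0 < c ∧ c ≤ 1 ∧ 1 ≤ C ∧ ∀ (𝔪 : Ideal (𝓞 F)) (χ : Ideal (𝓞 F) → ℂ), RC 𝔪 χ →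
    (∃ α : 𝓞 F, α ≠ 0 ∧ Ideal.span {α} ⊔ 𝔪 = ⊤ ∧ χ (Ideal.span {α}) ≠ 1) →
    ∀ Z : ℝ, 1 ≤ Z →
      ‖∑' I : Ideal (𝓞 F), χ I * (Real.exp (-(Ideal.absNorm I : ℝ) / Z) : ℂ)‖ ≤
        C * (Ideal.absNorm 𝔪 : ℝ) ^ C * Z ^ (1 - c)

/-- **A2_LS** (large sieve, abstract form). Let `J` be finite, `w ≥ 0` summable on `I` with sum `≤ H`,
`|χ_j| ≤ 1`, `|∑_n χ_j(n) conj χ_j'(n) w(n)| ≤ E` for `j ≠ j'`, and `κ w ≥ 1` on the finite set `S`. Then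
`∑_j |∑_{n ∈ S} a_n χ_j(n)|² ≤ κ (H + |J| E) ∑_{n ∈ S} |a_n|²`.

PROOF. `A` = left side, `S_j = ∑_{n ∈ S} a_n χ_j(n)`, `g_j = conj S_j`, `G(n) = ∑_j g_j χ_j(n)`. Then
`A = ∑_j g_j S_j = ∑_{n ∈ S} a_n G(n)`, so by Cauchy-Schwarz
`A² ≤ (∑_{n ∈ S} |a_n|²) (∑_{n ∈ S} |G(n)|²)` and
`∑_{n ∈ S} |G(n)|² ≤ κ ∑_{n ∈ S} w(n) |G(n)|² ≤ κ ∑'_n w(n) |G(n)|²
= κ ∑_{j, j'} g_j conj(g_j') ∑'_n χ_j(n) conj χ_j'(n) w(n) ≤ κ (H ∑_j |g_j|² + E (∑_j |g_j|)²)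
≤ κ (H + |J| E) A`
(all series converge absolutely because `|χ_j χ_j' w| ≤ w`; `0 ≤ E`, if `|J| ≤ 1` the second term is
absent; `κ ≥ 0`). So `A² ≤ (∑ |a|²) κ (H + |J| E) A`; divide by `A` if `A > 0`. -/
def A2_LS : Prop :=
  ∀ (I J : Type) [Fintype J] (w : I → ℝ) (χ : J → I → ℂ) (H E κ : ℝ),
    (∀ n, 0 ≤ w n) → Summable w → ∑' n, w n ≤ H → 0 ≤ E → 0 ≤ κ → (∀ j n, ‖χ j n‖ ≤ 1) →
    (∀ j j', j ≠ j' → ‖∑' n, χ j n * (starRingEnd ℂ) (χ j' n) * (w n : ℂ)‖ ≤ E) →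
    ∀ (S : Finset I) (a : I → ℂ), (∀ n ∈ S, 1 ≤ κ * w n) →
      ∑ j, ‖∑ n ∈ S, a n * χ j n‖ ^ 2 ≤ κ * (H + Fintype.card J * E) * ∑ n ∈ S, ‖a n‖ ^ 2

/-- **A2_REP** (representations as products of primes). An ideal has at most `r!` representations as an
ordered product of `r` prime ideals from a finite set `Q`.

PROOF. Induction on `r`; `r = 0`: at most one function on `Fin 0`. Step: let `n = ∏ v_i` with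
`v : Fin (r+1) → Q` (if there is no representation, nothing to prove). Every prime which divides `n` is
one of the `v_i` (a prime which divides a product divides a factor, and prime ideals dividing each other
are equal), so at most `r + 1` primes divide `n`. The first factor `u_0` of any representation `u` is one
of them, and the other factors represent `n / u_0` (cancel `u_0 ≠ ⊥`), at most `r!` possibilities for each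
`u_0`. (`Fin.cons` gives the bijection.) -/
def A2_REP : Prop :=
  ∀ (F : Type) [Field F] [NumberField F] (Q : Finset (HeightOneSpectrum (𝓞 F))) (r : ℕ)
    (n : Ideal (𝓞 F)),
    {v : Fin r → HeightOneSpectrum (𝓞 F) | (∀ i, v i ∈ Q) ∧ ∏ i, (v i).asIdeal = n}.ncard ≤
      r.factorial

/-- **A2_POW** (`2r`-th moments of sums over primes). Let `χ_j` be completely multiplicative functions on
ideals with `|χ_j| ≤ 1`, `χ_j(⊤) = 1`, and `w`, `H`, `E`, `κ` as in `A2_LS`, `κ w ≥ 1` at every product of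
`r` primes of `Q`. Then
`∑_j |∑_{q ∈ Q} a_q χ_j(q)|^(2r) ≤ κ (H + |J| E) r! |Q|^r` if `|a_q| ≤ 1`.

PROOF (from `A2_LS`, `A2_REP`). `(∑_q a_q χ_j(q))^r = ∑_{n} b_n χ_j(n)` with
`b_n = ∑_{v ∈ Q^r, ∏ v_i = n} ∏ a_{v_i}` (`Finset.sum_pow`/`Fintype.sum_pow`, `Finset.prod_univ_sum`, then
`Finset.sum_fiberwise_of_maps_to`), `n` in the finite set `S` of the products of `r` primes of `Q`. By
`A2_REP` `|b_n| ≤ r!`, so `∑_n |b_n|² ≤ r! ∑_n |b_n| ≤ r! |Q|^r`. Apply `A2_LS`. -/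
def A2_POW : Prop :=
  ∀ (F : Type) [Field F] [NumberField F] (J : Type) [Fintype J] (w : Ideal (𝓞 F) → ℝ)
    (χ : J → Ideal (𝓞 F) → ℂ) (H E κ : ℝ) (r : ℕ) (Q : Finset (HeightOneSpectrum (𝓞 F)))
    (a : HeightOneSpectrum (𝓞 F) → ℂ),
    (∀ n, 0 ≤ w n) → Summable w → ∑' n, w n ≤ H → 0 ≤ E → 0 ≤ κ → (∀ j n, ‖χ j n‖ ≤ 1) →
    (∀ j, χ j ⊤ = 1) → (∀ j m n, χ j (m * n) = χ j m * χ j n) →
    (∀ j j', j ≠ j' → ‖∑' n, χ j n * (starRingEnd ℂ) (χ j' n) * (w n : ℂ)‖ ≤ E) →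
    (∀ v : Fin r → HeightOneSpectrum (𝓞 F), (∀ i, v i ∈ Q) →
      1 ≤ κ * w (∏ i, (v i).asIdeal)) →
    (∀ q ∈ Q, ‖a q‖ ≤ 1) →
      ∑ j, ‖∑ q ∈ Q, a q * χ j q.asIdeal‖ ^ (2 * r) ≤
        κ * (H + Fintype.card J * E) * r.factorial * (Q.card : ℝ) ^ r

/-- **A2_HOL** (Hoelder). If `|β_j| ≤ 1`, `∑_j |β_j| ≤ B`, `B ≥ 0` and `∑_j |S_j|^(2r) ≤ M`, `r ≥ 1`, then
`|∑_j β_j S_j| ≤ B^(1 - 1/(2r)) M^(1/(2r))`.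

PROOF. Hoelder with the exponents `s = 2r/(2r-1)` and `2r`:
`|∑ β_j S_j| ≤ (∑ |β_j|^s)^(1/s) (∑ |S_j|^(2r))^(1/(2r))`, `|β_j|^s ≤ |β_j|` because `s ≥ 1`,
`1/s = 1 - 1/(2r)` (Mathlib: `Real.inner_le_Lp_mul_Lq`). -/
def A2_HOL : Prop :=
  ∀ (J : Type) [Fintype J] (β S : J → ℂ) (r : ℕ) (B M : ℝ), 1 ≤ r → (∀ j, ‖β j‖ ≤ 1) →
    ∑ j, ‖β j‖ ≤ B → 0 ≤ B → ∑ j, ‖S j‖ ^ (2 * r) ≤ M →
      ‖∑ j, β j * S j‖ ≤ B ^ (1 - 1 / (2 * (r : ℝ))) * M ^ (1 / (2 * (r : ℝ)))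

/-- **A2_CNT** (number of ideals). `#{I ≠ 0 : N(I) ≤ x} ≤ C x` for `x ≥ 0`, and the set is finite.

PROOF. Mathlib: `NumberField.Ideal.tendsto_norm_le_div_atTop` (the quotient by `x` converges, so it is
bounded for `x ≥ x₀`; the counting function is monotone and it is zero for `x < 1`). -/
def A2_CNT : Prop :=
  ∀ (F : Type) [Field F] [NumberField F], ∃ C : ℝ, 0 < C ∧ ∀ x : ℝ, 0 ≤ x →
    {I : Ideal (𝓞 F) | I ≠ ⊥ ∧ (Ideal.absNorm I : ℝ) ≤ x}.Finite ∧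
    ({I : Ideal (𝓞 F) | I ≠ ⊥ ∧ (Ideal.absNorm I : ℝ) ≤ x}.ncard : ℝ) ≤ C * x

/-- **A2_EXP** (exponential sum over all ideals). For `Z > 0` the series `∑_I exp(-N(I)/Z)` converges and
`∑_{I ≠ 0} exp(-N(I)/Z) ≤ C Z`.

PROOF (from `A2_CNT`). Let `A(k)` be the number of `I ≠ 0` with `N(I) ≤ k`, `A(k) ≤ C k`. For a finite set
`T` of nonzero ideals, with `f(k) = exp(-k/Z)`, `f(N) = ∑_{k ≥ N} (f(k) - f(k+1))`, so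
`∑_{I ∈ T} f(N(I)) ≤ ∑_{k ≥ 1} A(k) (f(k) - f(k+1)) ≤ C ∑_{k ≥ 1} k (f(k) - f(k+1)) = C ∑_{k ≥ 1} f(k)
= C/(exp(1/Z) - 1) ≤ C Z`. So the series of nonnegative terms converges, with sum `≤ C Z`; the term of
`I = 0` is `1`. -/
def A2_EXP : Prop :=
  ∀ (F : Type) [Field F] [NumberField F],
    (∀ Z : ℝ, 0 < Z → Summable fun I : Ideal (𝓞 F) ↦ Real.exp (-(Ideal.absNorm I : ℝ) / Z)) ∧
    ∃ C : ℝ, 0 < C ∧ ∀ Z : ℝ, 0 < Z →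
      ∑' I : {I : Ideal (𝓞 F) // I ≠ ⊥}, Real.exp (-(Ideal.absNorm I.1 : ℝ) / Z) ≤ C * Z

/-- **A2_BIL** (bilinear sums, one block). Let `F` satisfy `UniB` and `C₀ ≥ 1`. There are `δ > 0` and `C`
such that for all `U ≥ 2`, `V ≥ 1` with `log V ≤ U^δ`: let `χ_j` (`j ∈ J`) be ray class characters modulo
`𝔪_j`, `N(𝔪_j) ≤ V^C₀`, `|J| ≤ V^C₀`, any two of them different on some principal ideal prime to both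
moduli; `|β_j| ≤ 1`, `∑ |β_j| ≤ L V`, `L ≥ 1`; `Q` a finite set of primes of norm `≤ 2U`, `|a_q| ≤ 1`. Then
`|∑_j ∑_q β_j a_q χ_j(q)| ≤ C L V U (V^(-1/2) + U^(-2δ))`.

PROOF (from `A2_POW`, `A2_HOL`, `A2_CNT`, `A2_EXP`). Let `c, C₁` be the constants of `UniB`, `C₂ ≥ 1` that
of `A2_EXP` and `A2_CNT`. For `Z ≥ 1`: `w(I) = exp(-N(I)/Z)`, `H = (C₂ + 1) Z` (the ideal `0` contributes
`1 ≤ Z`), and for `j ≠ j'` the function `χ_j conj χ_j'` is a ray class character modulo `𝔪_j 𝔪_j'` not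
trivial on principal ideals, so `E = C₁ V^(2 C₀ C₁) Z^(1-c)` (`N(𝔪_j 𝔪_j') ≤ V^(2 C₀)`). Put
`C' = C₀ (1 + 2 C₁)/c ≥ 1`, `δ = 1/(10 C')`, `r` = the least integer `≥ 1` with `(2U)^r ≥ V^C'`,
`Z = (2U)^r`. Then `|J| E ≤ C₁ V^(C₀ + 2 C₀ C₁) Z^(1-c) ≤ C₁ Z`. A product `n` of `r` primes of `Q` has
norm `≤ Z`, so `e w(n) ≥ 1`, `κ = e`. `|Q| ≤ 2 C₂ U` (the primes of norm `≤ 2U` are different nonzero
ideals). `A2_POW`: `∑_j |S_j|^(2r) ≤ M = e (C₂ + 1 + C₁) (2U)^r r! (2 C₂ U)^r`,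
`S_j = ∑_q a_q χ_j(q)`, so `M^(1/(2r)) ≤ (e (C₂ + 1 + C₁))^(1/2) (4 C₂)^(1/2) U r^(1/2)` (`r! ≤ r^r`).
`A2_HOL` with `B = L V`: `B^(1-1/(2r)) ≤ L V V^(-1/(2r))`. If `r = 1` we are done. If `r ≥ 2` then
`(2U)^(r-1) < V^C'`, so `V^(-1/(2r)) ≤ (2U)^(-(r-1)/(2 r C')) ≤ U^(-1/(4 C'))` and
`r ≤ 1 + C' log V/log(2U) ≤ 1 + C' U^δ/log 2 ≤ (1 + 2 C') U^δ`, so
`r^(1/2) V^(-1/(2r)) ≤ (1 + 2 C')^(1/2) U^(δ/2 - 1/(4 C')) = (1 + 2 C')^(1/2) U^(-2δ)` since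
`1/(4 C') = 5δ/2`. -/
def A2_BIL : Prop :=
  ∀ (F : Type) [Field F] [NumberField F], UniB F → ∀ C₀ : ℝ, 1 ≤ C₀ →
  ∃ δ C : ℝ, 0 < δ ∧ 0 < C ∧ ∀ U V : ℝ, 2 ≤ U → 1 ≤ V → Real.log V ≤ U ^ δ →
  ∀ (J : Type) [Fintype J] (𝔪 : J → Ideal (𝓞 F)) (χ : J → Ideal (𝓞 F) → ℂ) (β : J → ℂ) (L : ℝ)
    (Q : Finset (HeightOneSpectrum (𝓞 F))) (a : HeightOneSpectrum (𝓞 F) → ℂ),
    (∀ j, RC (𝔪 j) (χ j)) → (∀ j, (Ideal.absNorm (𝔪 j) : ℝ) ≤ V ^ C₀) →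
    (Fintype.card J : ℝ) ≤ V ^ C₀ →
    (∀ j j', j ≠ j' → ∃ α : 𝓞 F, α ≠ 0 ∧ Ideal.span {α} ⊔ 𝔪 j * 𝔪 j' = ⊤ ∧
      χ j (Ideal.span {α}) ≠ χ j' (Ideal.span {α})) →
    (∀ j, ‖β j‖ ≤ 1) → 1 ≤ L → ∑ j, ‖β j‖ ≤ L * V →
    (∀ q ∈ Q, (Ideal.absNorm q.asIdeal : ℝ) ≤ 2 * U) → (∀ q ∈ Q, ‖a q‖ ≤ 1) →
      ‖∑ j, ∑ q ∈ Q, β j * a q * χ j q.asIdeal‖ ≤
        C * L * V * U * (V ^ (-(1 / 2) : ℝ) + U ^ (-(2 * δ)))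

/-- **A2_DYA** (bilinear sums, one block, with the weight). The same with the weight
`exp(-ρ N(q) v_j)`, `V ≤ v_j ≤ 2V`, `U ≤ N(q) ≤ 2U`, `ρ ≥ 0`; the bound gets the factor
`exp(-ρ U V)`.

PROOF (from `A2_BIL`, same `δ`). `ρ = 0` is `A2_BIL`. Let `ρ > 0`, `T = ⌊2U⌋`. For an integer `n ≤ T`:
`exp(-ρ n v) = ∑_{t = n}^{T} (exp(-ρ t v) - exp(-ρ (t+1) v)) + exp(-ρ (T+1) v)`. So the sum is
`∑_{t = ⌈U⌉}^{T} ∑_j β_j w_t(v_j) ∑_{q : N(q) ≤ t} a_q χ_j(q)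
+ ∑_j β_j exp(-ρ (T+1) v_j) ∑_q a_q χ_j(q)` with
`w_t(v) = exp(-ρ t v) (1 - exp(-ρ v)) ≤ W_t = exp(-ρ t V) min(1, 2 ρ V)`. Apply `A2_BIL` with
`β_j w_t(v_j)/W_t` instead of `β_j` and the set `{q ∈ Q : N(q) ≤ t}`: each term is at most
`W_t` times the bound of `A2_BIL`; the last one at most `exp(-ρ U V)` times it (`T + 1 ≥ 2U ≥ U`).
`∑_{t ≥ ⌈U⌉} W_t ≤ exp(-ρ U V) min(1, 2 ρ V)/(1 - exp(-ρ V)) ≤ 4 exp(-ρ U V)`: with `x = ρ V`, if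
`x ≥ 1` then `1/(1 - e^(-1)) ≤ 2`; if `x ≤ 1` then `1 - e^(-x) ≥ x/2`. Constant `5 C`. -/
def A2_DYA : Prop :=
  ∀ (F : Type) [Field F] [NumberField F], UniB F → ∀ C₀ : ℝ, 1 ≤ C₀ →
  ∃ δ C : ℝ, 0 < δ ∧ 0 < C ∧ ∀ U V : ℝ, 2 ≤ U → 1 ≤ V → Real.log V ≤ U ^ δ →
  ∀ (J : Type) [Fintype J] (𝔪 : J → Ideal (𝓞 F)) (χ : J → Ideal (𝓞 F) → ℂ) (β : J → ℂ)
    (v : J → ℝ) (L ρ : ℝ)
    (Q : Finset (HeightOneSpectrum (𝓞 F))) (a : HeightOneSpectrum (𝓞 F) → ℂ),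
    (∀ j, RC (𝔪 j) (χ j)) → (∀ j, (Ideal.absNorm (𝔪 j) : ℝ) ≤ V ^ C₀) →
    (Fintype.card J : ℝ) ≤ V ^ C₀ →
    (∀ j j', j ≠ j' → ∃ α : 𝓞 F, α ≠ 0 ∧ Ideal.span {α} ⊔ 𝔪 j * 𝔪 j' = ⊤ ∧
      χ j (Ideal.span {α}) ≠ χ j' (Ideal.span {α})) →
    (∀ j, ‖β j‖ ≤ 1) → 1 ≤ L → ∑ j, ‖β j‖ ≤ L * V → (∀ j, V ≤ v j ∧ v j ≤ 2 * V) → 0 ≤ ρ →
    (∀ q ∈ Q, U ≤ (Ideal.absNorm q.asIdeal : ℝ) ∧ (Ideal.absNorm q.asIdeal : ℝ) ≤ 2 * U) →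
    (∀ q ∈ Q, ‖a q‖ ≤ 1) →
      ‖∑ j, ∑ q ∈ Q, β j * a q * χ j q.asIdeal *
          (Real.exp (-(ρ * Ideal.absNorm q.asIdeal * v j)) : ℂ)‖ ≤
        C * L * V * U * (V ^ (-(1 / 2) : ℝ) + U ^ (-(2 * δ))) * Real.exp (-(ρ * U * V))

end Pool.Agent.Helper51.PP
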