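import Pool.Agent.Helper88.PP.Goals

/-!
# Packet 2302 (MP_69be96_nt): `StmtMA → StmtRH`
-/

set_option autoImplicit false

open Finset Filter Topology

open scoped Classical

namespace Pool.Agent.Helper51.PP

open Pool.Agent.Helper88.PP

theorem mem_SS {z X r : ℕ} : r ∈ SS z X ↔ (1 ≤ r ∧ r < X) ∧ Sf z r := by
  unfold SS
  rw [Finset.mem_filter, Finset.mem_Ico]

theorem mem_LA {z m m' r : ℕ} : r ∈ LA z m m' ↔ ((1 ≤ r ∧ r < z ^ m') ∧ Sf z r) ∧ z ^ m ≤ r := by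
  unfold LA
  rw [Finset.mem_filter, mem_SS]

theorem SS_split {z a b : ℕ} (hz : 1 ≤ z) (hab : a ≤ b) (f : ℕ → ℝ) :
    ∑ r ∈ SS z (z ^ b), f r = ∑ r ∈ SS z (z ^ a), f r + ∑ r ∈ LA z a b, f r := by
  rw [← Finset.sum_union]
  · refine Finset.sum_congr ?_ fun _ _ => rfl
    ext r
    have hle : z ^ a ≤ z ^ b := Nat.pow_le_pow_right hz hab
    rw [Finset.mem_union, mem_SS, mem_SS, mem_LA]
    constructor
    · rintro ⟨⟨h1, h2⟩, h3⟩
      rcases lt_or_ge r (z ^ a) with h | h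
      · exact Or.inl ⟨⟨h1, h⟩, h3⟩
      · exact Or.inr ⟨⟨⟨h1, h2⟩, h3⟩, h⟩
    · rintro (⟨⟨h1, h2⟩, h3⟩ | ⟨⟨⟨h1, h2⟩, h3⟩, h4⟩)
      · exact ⟨⟨h1, h2.trans_le hle⟩, h3⟩
      · exact ⟨⟨h1, h2⟩, h3⟩
  · rw [Finset.disjoint_left]
    intro r h1 h2
    have := (mem_SS.mp h1).1.2
    have := (mem_LA.mp h2).2
    omega

theorem VV_split {z a b d : ℕ} (hz : 1 ≤ z) (hab : a ≤ b) (hbd : b ≤ d) :
    VV z a d = VV z a b + VV z b d := by
  unfold VV
  rw [← Finset.sum_union]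
  · refine Finset.sum_congr ?_ fun _ _ => rfl
    ext r
    have hle : z ^ a ≤ z ^ b := Nat.pow_le_pow_right hz hab
    have hle' : z ^ b ≤ z ^ d := Nat.pow_le_pow_right hz hbd
    rw [Finset.mem_union, mem_LA, mem_LA, mem_LA]
    constructor
    · rintro ⟨⟨⟨h1, h2⟩, h3⟩, h4⟩
      rcases lt_or_ge r (z ^ b) with h | h
      · exact Or.inl ⟨⟨⟨h1, h⟩, h3⟩, h4⟩
      · exact Or.inr ⟨⟨⟨h1, h2⟩, h3⟩, h⟩
    · rintro (⟨⟨⟨h1, h2⟩, h3⟩, h4⟩ | ⟨⟨⟨h1, h2⟩, h3⟩, h4⟩)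
      · exact ⟨⟨⟨h1, h2.trans_le hle'⟩, h3⟩, h4⟩
      · exact ⟨⟨⟨h1, h2⟩, h3⟩, hle.trans h4⟩
  · rw [Finset.disjoint_left]
    intro r h1 h2
    have := (mem_LA.mp h1).1.1.2
    have := (mem_LA.mp h2).2
    omega

theorem VV_nonneg (z a b : ℕ) : 0 ≤ VV z a b :=
  Finset.sum_nonneg fun r _ => by positivity

theorem VV_lower {z a b : ℕ} (hz : 2 ≤ z) (hb : 1 ≤ b) :
    (∑ r ∈ LA z a b, 1 / (Nat.totient r : ℝ)) / b ≤ VV z a b := by
  unfold VV
  rw [Finset.sum_div]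
  refine Finset.sum_le_sum fun r hr => ?_
  obtain ⟨⟨⟨h1, h2⟩, -⟩, -⟩ := mem_LA.mp hr
  have hφ : 0 < (Nat.totient r : ℝ) := by exact_mod_cast Nat.totient_pos.mpr h1
  have he : ee z r ≤ b := by
    unfold ee
    have : Nat.log z r < b := (Nat.log_lt_iff_lt_pow (by omega) (by omega)).mpr h2
    omega
  have he' : (ee z r : ℝ) ≤ b := by exact_mod_cast he
  have he0 : 0 < (ee z r : ℝ) := by
    have : 0 < ee z r := by unfold ee; omega
    exact_mod_cast this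
  have hb0 : (0 : ℝ) < b := by exact_mod_cast hb
  rw [div_div]
  exact one_div_le_one_div_of_le (by positivity) (mul_le_mul_of_nonneg_left he' hφ.le)

theorem rh (h : StmtMA) : StmtRH := by
  obtain ⟨c, C, hc, hC, hMA⟩ := h
  intro L
  obtain ⟨B0, hB0⟩ := exists_nat_ge (2 * C / c)
  set B : ℕ := max B0 2 with hB
  have hB1 : 2 * C / c ≤ (B : ℝ) := hB0.trans (by exact_mod_cast le_max_left _ _)
  have hB2 : 2 ≤ B := le_max_right _ _
  have hCB : C ≤ c / 2 * B := by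
    rw [div_le_iff₀ hc] at hB1
    linarith
  obtain ⟨n, hn⟩ := exists_nat_ge (L / (c / 2))
  have hn' : L ≤ n * (c / 2) := by
    rwa [div_le_iff₀ (by positivity)] at hn
  refine ⟨B ^ n, Nat.one_le_pow _ _ (by omega), fun m z hm hz => hn'.trans ?_⟩
  clear hn hn'
  induction n with
  | zero =>
    have := VV_nonneg z m (B ^ 0 * m)
    simpa only [Nat.cast_zero, zero_mul] using this
  | succ n ih =>
    have hm0 : (0 : ℝ) < m := by exact_mod_cast hm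
    have hBn : 1 ≤ B ^ n := Nat.one_le_pow _ _ (by omega)
    have hBn' : B ^ n ≤ B ^ (n + 1) := Nat.pow_le_pow_right (by omega) (Nat.le_succ n)
    have ha : 1 ≤ B ^ n * m := Nat.one_le_iff_ne_zero.mpr (by positivity)
    have hd : 1 ≤ B ^ (n + 1) * m := Nat.one_le_iff_ne_zero.mpr (by positivity)
    have hab : m ≤ B ^ n * m := Nat.le_mul_of_pos_left m (by positivity)
    have hbd : B ^ n * m ≤ B ^ (n + 1) * m := Nat.mul_le_mul_right m hBn'
    rw [VV_split (by omega) hab hbd]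
    have h1 := (hMA z (B ^ (n + 1) * m) hz hd).1
    have h2 := (hMA z (B ^ n * m) hz ha).2.1
    rw [SS_split (by omega) hbd (fun s => 1 / (Nat.totient s : ℝ))] at h1
    have h3 := VV_lower (a := B ^ n * m) hz hd
    have hdpos : (0 : ℝ) < ((B ^ (n + 1) * m : ℕ) : ℝ) := by exact_mod_cast hd
    rw [div_le_iff₀ hdpos] at h3
    have h4 : c / 2 * ((B ^ (n + 1) * m : ℕ) : ℝ) ≤
        VV z (B ^ n * m) (B ^ (n + 1) * m) * ((B ^ (n + 1) * m : ℕ) : ℝ) := by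
      refine le_trans ?_ h3
      have h5 : C * ((B ^ n * m : ℕ) : ℝ) ≤ c / 2 * ((B ^ (n + 1) * m : ℕ) : ℝ) := by
        calc C * ((B ^ n * m : ℕ) : ℝ) ≤ (c / 2 * B) * ((B ^ n * m : ℕ) : ℝ) :=
              mul_le_mul_of_nonneg_right hCB (by positivity)
          _ = _ := by push_cast; ring
      linarith
    have h6 := le_of_mul_le_mul_right h4 hdpos
    push_cast
    linarith

end Pool.Agent.Helper51.PP
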