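import Pool.Agent.Helper51.PP.POW

/-!
# Project PP, packet A2-BIL: bilinear sums, one block
-/

namespace Pool.Agent.Helper51.PP

open NumberField IsDedekindDomain ComplexConjugate

namespace RC

variable {F : Type} [Field F] [NumberField F] {𝔪 𝔫 : Ideal (𝓞 F)} {χ ψ : Ideal (𝓞 F) → ℂ}

theorem norm_le (h : RC 𝔪 χ) (I : Ideal (𝓞 F)) : ‖χ I‖ ≤ 1 := by
  by_cases h0 : I = ⊥
  · rw [h0, h.zero, norm_zero]
    exact zero_le_one
  by_cases h1 : I ⊔ 𝔪 = ⊤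
  · exact (h.cop I h0 h1).le
  · rw [h.ncop I h0 h1, norm_zero]
    exact zero_le_one

theorem top (h : RC 𝔪 χ) : χ ⊤ = 1 := by
  have h1 : ‖χ ⊤‖ = 1 := h.cop ⊤ top_ne_bot (by simp)
  have h2 : χ ⊤ ≠ 0 := by
    intro h3
    rw [h3, norm_zero] at h1
    exact zero_ne_one h1
  have h3 := h.mul ⊤ ⊤
  rw [Ideal.top_mul] at h3
  have h4 : χ ⊤ * 1 = χ ⊤ * χ ⊤ := by rw [mul_one]; exact h3
  exact (mul_left_cancel₀ h2 h4).symm

/-- the ratio of two ray class characters -/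
theorem ratio (h : RC 𝔪 χ) (h' : RC 𝔫 ψ) : RC (𝔪 * 𝔫) (fun I => χ I * conj (ψ I)) := by
  refine ⟨mul_ne_zero h.ne h'.ne, ?_, ?_, ?_, ?_, ?_⟩
  · simp [h.zero]
  · intro I J
    simp only [h.mul, h'.mul, map_mul]
    ring
  · intro I hI hc
    have h1 : I ⊔ 𝔪 = ⊤ := by
      rw [eq_top_iff, ← hc]
      exact sup_le_sup_left Ideal.mul_le_left _
    have h2 : I ⊔ 𝔫 = ⊤ := by
      rw [eq_top_iff, ← hc]
      exact sup_le_sup_left Ideal.mul_le_right _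
    rw [norm_mul, RCLike.norm_conj, h.cop I hI h1, h'.cop I hI h2, one_mul]
  · intro I hI hc
    by_cases h1 : I ⊔ 𝔪 = ⊤
    · have h2 : I ⊔ 𝔫 ≠ ⊤ := by
        intro h2
        apply hc
        rw [Ideal.sup_mul_eq_of_coprime_left h1]
        exact h2
      simp [h'.ncop I hI h2]
    · simp [h.ncop I hI h1]
  · intro α hα hm
    have h1 : α - 1 ∈ 𝔪 := (Ideal.mul_le_left : 𝔪 * 𝔫 ≤ 𝔪) hm
    have h2 : α - 1 ∈ 𝔫 := (Ideal.mul_le_right : 𝔪 * 𝔫 ≤ 𝔫) hm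
    rw [h.ray α hα h1, h'.ray α hα h2, map_one, mul_one]

end RC

end Pool.Agent.Helper51.PP
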