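import Pool.Agent.Helper51.PP.Asm
import Pool.Agent.Helper76.PP.Goals3

/-!
# Project PP: the fields `bl₁`, `bl₂` of `Sys.Hyp` for the system `B.sys E` of part B
-/

namespace Pool.Agent.Helper51.PP

open NumberField Polynomial Module IsDedekindDomain
open Pool.Agent.Helper51.RP Pool.Agent.Helper42.RD Pool.Agent.Helper42.PP
open Pool.Agent.Helper51.SigLeo (IwasawaLog)
open Pool.Agent.Helper17.PP (Sys)
open Pool.Agent.Helper76.PP (B_BLU B_BLH psK)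

section

variable {p : ℕ} {B B₀ k U Λ C : Type} [Field k] [AddCommGroup U] [Module k U]
    [AddCommGroup Λ] [Module k Λ] [AddCommGroup C]

open Classical in
/-- The field `bl₁` with the constant `K`. -/
def BL1At [Fintype k] [Algebra (ZMod p) k] (S : Sys p B B₀ k U Λ C) (ψ : AddChar k ℂ) (K : ℕ) :
    Prop :=
  ∀ (i j : ℕ) (t : k) (y c : B → k) (α : B → ℂ) (β : Finset B → ℂ) (Y : ℝ), 1 ≤ j →
    t ≠ 0 → 0 < Y → (∀ q, ‖α q‖ ≤ 1) → (∀ D, ‖β D‖ ≤ (Fintype.card k : ℝ) ^ D.card) →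
    (∀ D, β D ≠ 0 → Set.InjOn S.bs (D : Set B) ∧ ∀ q ∈ D, S.spl q ∧ S.bl q ≠ j ∧ y q ≠ 0) →
    ‖∑ q ∈ S.blk j with S.spl q, ∑ D ∈ S.mods i, α q * β D * S.chr ψ D y c t q *
      (Real.exp (-(S.N q * S.nm D / Y)) : ℂ)‖ ≤
      K * 2 ^ (i + j) * (i + 1) ^ K * (2 : ℝ) ^ (-(min i j : ℝ) / K) *
        Real.exp (-((2 : ℝ) ^ (i + j) / (2 * Y)))

open Classical in
/-- The field `bl₂` with the constant `K`. -/
def BL2At (S : Sys p B B₀ k U Λ C) (ψ₁ : AddChar (ZMod p) ℂ) (K : ℕ) : Prop :=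
  ∀ (i j : ℕ) (s : ZMod p) (α β : B → ℂ) (Y : ℝ), 1 ≤ i → 1 ≤ j → s ≠ 0 → 0 < Y →
    (∀ q, ‖α q‖ ≤ 1) → (∀ q, ‖β q‖ ≤ 1) →
    ‖∑ P ∈ S.blk i with ¬ S.spl P, ∑ q ∈ S.blk j with S.spl q, α P * β q *
      ψ₁ (s * S.kap q P) * (Real.exp (-((S.N q : ℝ) * S.N P / Y)) : ℂ)‖ ≤
      K * 2 ^ (i + j) * (i + j) ^ K * (2 : ℝ) ^ (-(min i j : ℝ) / K) *
        Real.exp (-((2 : ℝ) ^ (i + j) / (2 * Y)))

theorem BL1At.mono [Fintype k] [Algebra (ZMod p) k] {S : Sys p B B₀ k U Λ C} {ψ : AddChar k ℂ}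
    {K K' : ℕ} (h1 : 1 ≤ K) (h : K ≤ K') (hK : BL1At S ψ K) : BL1At S ψ K' := by
  intro i j t y c α β Y hj ht hY hα hβ hs
  refine (hK i j t y c α β Y hj ht hY hα hβ hs).trans ?_
  refine mul_le_mul_of_nonneg_right ?_ (Real.exp_pos _).le
  refine (bound_mono h1 h).trans ?_
  have h2 : (K : ℝ) ≤ K' := by exact_mod_cast h
  gcongr

theorem BL2At.mono {S : Sys p B B₀ k U Λ C} {ψ₁ : AddChar (ZMod p) ℂ}
    {K K' : ℕ} (h1 : 1 ≤ K) (h : K ≤ K') (hK : BL2At S ψ₁ K) : BL2At S ψ₁ K' := by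
  intro i j s α β Y hi hj hs hY hα hβ
  refine (hK i j s α β Y hi hj hs hY hα hβ).trans ?_
  refine mul_le_mul_of_nonneg_right ?_ (Real.exp_pos _).le
  have h2 : (K : ℝ) ≤ K' := by exact_mod_cast h
  have hi1 : (1 : ℝ) ≤ i := by exact_mod_cast hi
  have hj1 : (0 : ℝ) ≤ j := Nat.cast_nonneg _
  have h3 : ((i : ℝ) + j) ^ K ≤ ((i : ℝ) + j) ^ K' := pow_le_pow_right₀ (by linarith) h
  have h4 : (2 : ℝ) ^ (-(min i j : ℝ) / K) ≤ (2 : ℝ) ^ (-(min i j : ℝ) / K') := by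
    refine Real.rpow_le_rpow_of_exponent_le (by norm_num) ?_
    rw [neg_div, neg_div, neg_le_neg_iff]
    have h5 : (0 : ℝ) < K := by exact_mod_cast h1
    exact div_le_div_of_nonneg_left (le_min (Nat.cast_nonneg _) (Nat.cast_nonneg _)) h5 h2
  gcongr

end

section

variable {p : ℕ} [Fact p.Prime] {k : Type} [NormedField k] {K M K₁ M₁ : Type}
    [Field K] [NumberField K] [Field M] [NumberField M]
    [Field K₁] [NumberField K₁] [Field M₁] [NumberField M₁] [Algebra K M] [Algebra K K₁]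
    [Algebra K M₁] [Algebra M M₁] [Algebra K₁ M₁] {ε : K₁} {δ : M ≃ₐ[K] M} {P : (ZMod p)[X]}
    [Fact (Irreducible P)] (B : Base p K M K₁ M₁ ε δ P) {L : IwasawaLog p k}
    {T : Set (K →+* k)} {aτ : K₁ˣ} (E : Tau B L T aτ)

/-- the labels of one prime -/
theorem fib_sys (b₀ : HeightOneSpectrum (𝓞 K)) :
    {q | (B.sys E).bs q = b₀}.Finite ∧
      {q | (B.sys E).bs q = b₀}.ncard ≤ Fintype.card (ZMod p)ˣ := by
  have hinj : Set.InjOn (fun q : B.LP => q.1.2) {q | (B.sys E).bs q = b₀} := by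
    intro q hq q' hq' h
    have h1 : q.1.1 = b₀ := hq
    have h2 : q'.1.1 = b₀ := hq'
    exact Subtype.ext (Prod.ext (h1.trans h2.symm) h)
  refine ⟨Set.Finite.of_finite_image (Set.toFinite _) hinj, ?_⟩
  rw [← Set.ncard_image_of_injOn hinj, ← Nat.card_eq_fintype_card, ← Set.ncard_univ]
  exact Set.ncard_le_ncard (Set.subset_univ _) (Set.toFinite _)

end

/-- **B_BL1**: the field `bl₁` for the system `B.sys E`, for all large constants. -/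
theorem b_bl1 (hB : B_BLU) (p : ℕ) [Fact p.Prime] (k : Type) [NormedField k] [NormedAlgebra ℚ_[p] k]
    (K M K₁ M₁ : Type) [Field K] [NumberField K] [Field M] [NumberField M]
    [Field K₁] [NumberField K₁] [Field M₁] [NumberField M₁] [Algebra K M] [Algebra K K₁]
    [Algebra K M₁] [Algebra M M₁] [Algebra K₁ M₁] [IsScalarTower K M M₁] [IsScalarTower K K₁ M₁]
    [IsGalois K M] [IsGalois K K₁] [IsGalois K M₁] (ε : K₁) (hT : Tower p K M K₁ M₁ ε)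
    (m : ℕ) (δ : M ≃ₐ[K] M) (ζ : k) (Φ : ℤ_[p][X]) (P : (ZMod p)[X]) [Fact (Irreducible P)]
    [Fintype (AdjoinRoot P)]
    (hP : PhiData p m ζ Φ P) (hδ : orderOf δ = m) (hm : finrank K M = m)
    (B : Base p K M K₁ M₁ ε δ P) (L : IwasawaLog p k) (T : Set (K →+* k)) (aτ : K₁ˣ)
    (E : Tau B L T aτ) (tr : AdjoinRoot P →ₗ[ZMod p] ZMod p) (ψ₁ : AddChar (ZMod p) ℂ)
    (htr : tr ≠ 0) (hψ : ψ₁ ≠ 1) (hU : UniB M₁) (K₀ : ℕ)
    (hche : ∀ j : ℕ, 1 ≤ j → ∑ q ∈ (B.sys E).blk j, (1 : ℝ) / (B.sys E).N q ≤ K₀ / j) :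
    ∃ K' : ℕ, ∀ K'' : ℕ, K' ≤ K'' → BL1At (B.sys E) (psK tr ψ₁) K'' := by
  obtain ⟨Xd, h1, h2⟩ := hB p k K M K₁ M₁ ε hT m δ ζ Φ P hP hδ hm B L T aτ E tr ψ₁ htr hψ
  obtain ⟨K', h3, h4⟩ := bl1 p B.LP (HeightOneSpectrum (𝓞 K)) (AdjoinRoot P)
    (Fin B.r → AdjoinRoot P) (Fin B.r → AdjoinRoot P) (Fin B.t → ZMod p) (B.sys E) (psK tr ψ₁) M₁
    hU K₀ (Fintype.card (ZMod p)ˣ) hche (fib_sys B E) (ZMod p)ˣ (fun q => q.1.2) (modu p M₁ B.S)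
    (fun q ↦ q.1.1.asIdeal.map (algebraMap (𝓞 K) (𝓞 M₁))) (finrank K M₁) (fun q ↦ B.W q.1.1) Xd
    h1 h2
  exact ⟨K', fun K'' hK => BL1At.mono h3 hK h4⟩

/-- **B_BL2**: the field `bl₂` for the system `B.sys E`, for all large constants. -/
theorem b_bl2 (hB : B_BLH) (p : ℕ) [Fact p.Prime] (k : Type) [NormedField k] [NormedAlgebra ℚ_[p] k]
    (K M K₁ M₁ : Type) [Field K] [NumberField K] [Field M] [NumberField M]
    [Field K₁] [NumberField K₁] [Field M₁] [NumberField M₁] [Algebra K M] [Algebra K K₁]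
    [Algebra K M₁] [Algebra M M₁] [Algebra K₁ M₁] [IsScalarTower K M M₁] [IsScalarTower K K₁ M₁]
    [IsGalois K M] [IsGalois K K₁] [IsGalois K M₁] (ε : K₁) (hT : Tower p K M K₁ M₁ ε)
    (m : ℕ) (δ : M ≃ₐ[K] M) (ζ : k) (Φ : ℤ_[p][X]) (P : (ZMod p)[X]) [Fact (Irreducible P)]
    (hP : PhiData p m ζ Φ P) (hδ : orderOf δ = m) (hm : finrank K M = m)
    (B : Base p K M K₁ M₁ ε δ P) (L : IwasawaLog p k) (T : Set (K →+* k)) (aτ : K₁ˣ)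
    (E : Tau B L T aτ) (ψ₁ : AddChar (ZMod p) ℂ) (hψ : ψ₁ ≠ 1) (hU : UniB K₁) (K₀ : ℕ)
    (hche : ∀ j : ℕ, 1 ≤ j → ∑ q ∈ (B.sys E).blk j, (1 : ℝ) / (B.sys E).N q ≤ K₀ / j) :
    ∃ K' : ℕ, ∀ K'' : ℕ, K' ≤ K'' → BL2At (B.sys E) ψ₁ K'' := by
  obtain ⟨Xd, h1, h2⟩ := hB p k K M K₁ M₁ ε hT m δ ζ Φ P hP hδ hm B L T aτ E ψ₁ hψ
  obtain ⟨K', h3, h4⟩ := bl2 p B.LP (HeightOneSpectrum (𝓞 K)) (AdjoinRoot P)
    (Fin B.r → AdjoinRoot P) (Fin B.r → AdjoinRoot P) (Fin B.t → ZMod p) (B.sys E) ψ₁ K₁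
    hU K₀ (Fintype.card (ZMod p)ˣ) hche (fib_sys B E) (ZMod p)ˣ (fun q => q.1.2) (modu p K₁ B.S)
    (fun q ↦ q.1.1.asIdeal.map (algebraMap (𝓞 K) (𝓞 K₁))) (finrank K K₁) (fun q ↦ B.Q q.1.1) Xd
    h1 h2
  exact ⟨K', fun K'' hK => BL2At.mono h3 hK h4⟩

end Pool.Agent.Helper51.PP
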