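import Pool.Agent.Helper51.PP.GEN4

/-!
# Project PP, packet A2-GEN: the bilinear bound
-/

namespace Pool.Agent.Helper51.PP

open NumberField IsDedekindDomain ComplexConjugate
open Pool.Agent.Helper17.PP (Sys)

theorem sum_tel (f : ℕ → ℝ) {m n : ℕ} (h : m ≤ n) :
    ∑ t ∈ Finset.Ico m n, (f t - f (t + 1)) = f m - f n := by
  induction n, h using Nat.le_induction with
  | base => simp
  | succ n hn ih =>
    rw [Finset.sum_Ico_succ_top hn, ih]
    ring

/-- monotonicity of the bound in `K` -/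
theorem bound_mono {K K' i j : ℕ} (h1 : 1 ≤ K) (h : K ≤ K') :
    (K : ℝ) * 2 ^ (i + j) * ((i : ℝ) + 1) ^ K * (2 : ℝ) ^ (-(min i j : ℝ) / K) ≤
      K * 2 ^ (i + j) * ((i : ℝ) + 1) ^ K' * (2 : ℝ) ^ (-(min i j : ℝ) / K') := by
  have hi : (0 : ℝ) ≤ i := Nat.cast_nonneg _
  have h2 : ((i : ℝ) + 1) ^ K ≤ ((i : ℝ) + 1) ^ K' := pow_le_pow_right₀ (by linarith) h
  have h3 : (2 : ℝ) ^ (-(min i j : ℝ) / K) ≤ (2 : ℝ) ^ (-(min i j : ℝ) / K') := by
    refine Real.rpow_le_rpow_of_exponent_le (by norm_num) ?_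
    rw [neg_div, neg_div, neg_le_neg_iff]
    have h4 : (0 : ℝ) < K := by exact_mod_cast h1
    have h5 : (K : ℝ) ≤ K' := by exact_mod_cast h
    exact div_le_div_of_nonneg_left (le_min hi (Nat.cast_nonneg _)) h4 h5
  gcongr

section

variable {p : ℕ} {B B₀ k U Λ C : Type} [Field k] [AddCommGroup U] [Module k U]
    [AddCommGroup Λ] [Module k Λ] [AddCommGroup C] (S : Sys p B B₀ k U Λ C)
variable {F : Type} [Field F] [NumberField F]

/-- scaled form of the claim -/
theorem claim_scale {A : ℝ} (hA : 1 ≤ A) {Lo : Set B} {i : ℕ} {R : ℝ}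
    {f : Finset B → ℂ}
    (h : ∀ β : Finset B → ℂ, (∀ D, ‖β D‖ ≤ A ^ D.card) → ‖∑ D ∈ JJ S Lo i, β D * f D‖ ≤ R)
    {w : ℝ} (hw : 0 < w) (β : Finset B → ℂ) (hβ : ∀ D ∈ JJ S Lo i, ‖β D‖ ≤ w * A ^ D.card) :
    ‖∑ D ∈ JJ S Lo i, β D * f D‖ ≤ w * R := by
  classical
  have h1 := h (fun D => if D ∈ JJ S Lo i then β D / w else 0) (by
    intro D
    show ‖if D ∈ JJ S Lo i then β D / w else 0‖ ≤ _
    split_ifs with hD
    · rw [norm_div, Complex.norm_real, Real.norm_of_nonneg hw.le, div_le_iff₀ hw, mul_comm]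
      exact hβ D hD
    · rw [norm_zero]
      have : 0 ≤ A := by linarith
      positivity)
  have hwC : (w : ℂ) ≠ 0 := by exact_mod_cast hw.ne'
  have h2 : ∑ D ∈ JJ S Lo i, (if D ∈ JJ S Lo i then β D / w else 0) * f D =
      (∑ D ∈ JJ S Lo i, β D * f D) / w := by
    rw [Finset.sum_div]
    refine Finset.sum_congr rfl fun D hD => ?_
    rw [if_pos hD]
    ring
  rw [h2, norm_div, Complex.norm_real, Real.norm_of_nonneg hw.le, div_le_iff₀ hw, mul_comm] at h1
  exact h1

end

open Classical in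
/-- Packet A2-GEN. -/
theorem a2_gen (hrep : A2_REP) (hcrt : A2_CRT) (hhlg : A2_HLG) (hexp' : A2_EXP) (hmod : A2_MOD)
    (hfib' : A2_FIB) : A2_GEN := by
  intro p B B₀ k U Λ C _ _ _ _ _ _ S F _ _ hUni K₀ ℓ A hA hche hℓ 𝔪₀ d
  obtain ⟨K₂, hK₂1, hmods, hcl⟩ := claim S hrep hcrt hhlg hexp' hmod hfib' hUni K₀ ℓ A hA hche hℓ 𝔪₀ d
  have hK₂R : (1 : ℝ) ≤ K₂ := by exact_mod_cast hK₂1
  refine ⟨3 * K₂ + 2 * K₀ * K₂, by nlinarith, ?_⟩
  set K : ℕ := 3 * K₂ + 2 * K₀ * K₂ with hK
  have hKK : K₂ ≤ K := by rw [hK]; nlinarith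
  have hK3 : (3 : ℝ) * K₂ ≤ K := by
    rw [hK]
    push_cast
    have : (0 : ℝ) ≤ 2 * K₀ * K₂ := by positivity
    linarith
  have hK0 : (2 : ℝ) * K₀ * K₂ ≤ K := by
    rw [hK]
    push_cast
    linarith
  intro nn Up Lo W X h i j α β Y hj hY hα hβ hsupp
  set ρ : ℝ := 1 / Y with hρ
  have hρ0 : 0 < ρ := by positivity
  set Q : Finset B := (S.blk j).filter (fun q => q ∈ Up) with hQ
  have hQb : Q ⊆ S.blk j := Finset.filter_subset _ _
  have hQU : ∀ q ∈ Q, q ∈ Up := fun q hq => (Finset.mem_filter.1 hq).2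
  set x : ℝ := ρ * 2 ^ i with hx
  have hx0 : 0 < x := by positivity
  -- restrict the moduli to `JJ`
  have e0 : ∑ q ∈ Q, ∑ D ∈ S.mods i, α q * β D * (∏ q' ∈ D, X q' (W q).asIdeal) *
      (Real.exp (-(S.N q * S.nm D / Y)) : ℂ) =
      ∑ q ∈ Q, ∑ D ∈ JJ S Lo i, α q * β D * (∏ q' ∈ D, X q' (W q).asIdeal) *
      (Real.exp (-(ρ * S.N q * S.nm D)) : ℂ) := by
    refine Finset.sum_congr rfl fun q _ => ?_
    rw [JJ, Finset.sum_filter]
    refine Finset.sum_congr rfl fun D _ => ?_
    have e1 : (S.N q * S.nm D / Y : ℝ) = ρ * S.N q * S.nm D := by rw [hρ]; ring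
    rw [e1]
    split_ifs with hD
    · rfl
    · by_cases hb : β D = 0
      · rw [hb]
        simp
      · exact absurd (hsupp D hb) hD
  have goal2 : ‖∑ q ∈ Q, ∑ D ∈ S.mods i, α q * β D * (∏ q' ∈ D, X q' (W q).asIdeal) *
      (Real.exp (-(S.N q * S.nm D / Y)) : ℂ)‖ ≤
      K * 2 ^ (i + j) * (i + 1) ^ K * (2 : ℝ) ^ (-(min i j : ℝ) / K) *
        Real.exp (-((2 : ℝ) ^ (i + j) / (2 * Y))) := by
    rw [e0]
    have hexpo : Real.exp (-(x * 2 ^ j)) ≤ Real.exp (-((2 : ℝ) ^ (i + j) / (2 * Y))) := by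
      refine Real.exp_le_exp.2 ?_
      rw [neg_le_neg_iff, hx, hρ, pow_add]
      have h1 : (0 : ℝ) ≤ 2 ^ i * 2 ^ j / Y := by positivity
      calc (2 : ℝ) ^ i * 2 ^ j / (2 * Y) = (2 ^ i * 2 ^ j / Y) / 2 := by ring
        _ ≤ 2 ^ i * 2 ^ j / Y := by linarith
        _ = _ := by ring
    rcases Nat.eq_zero_or_pos i with hi | hi
    · -- trivial bound
      subst hi
      have h1 : ∀ q ∈ Q, ‖∑ D ∈ JJ S Lo 0, α q * β D * (∏ q' ∈ D, X q' (W q).asIdeal) *
          (Real.exp (-(ρ * S.N q * S.nm D)) : ℂ)‖ ≤ K₂ * Real.exp (-(x * 2 ^ j)) := by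
        intro q hq
        refine (norm_sum_le _ _).trans ?_
        have h2 : ∀ D ∈ JJ S Lo 0, ‖α q * β D * (∏ q' ∈ D, X q' (W q).asIdeal) *
            (Real.exp (-(ρ * S.N q * S.nm D)) : ℂ)‖ ≤ A ^ D.card * Real.exp (-(x * 2 ^ j)) := by
          intro D hD
          obtain ⟨h3, -, h5⟩ := (mem_JJ S).1 hD
          have h6 : ‖∏ q' ∈ D, X q' (W q).asIdeal‖ ≤ 1 := by
            rw [norm_prod]
            exact Finset.prod_le_one (fun _ _ => norm_nonneg _)
              fun q' hq' => (h.rc q' (h5 q' hq')).norm_le _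
          have h7 : Real.exp (-(ρ * S.N q * S.nm D)) ≤ Real.exp (-(x * 2 ^ j)) := by
            refine Real.exp_le_exp.2 ?_
            rw [neg_le_neg_iff, hx]
            have h8 : ((2 : ℝ) ^ j) ≤ S.N q := by exact_mod_cast le_N S (hQb hq)
            have h9 : ((2 : ℝ) ^ 0) ≤ S.nm D := by exact_mod_cast le_nm S h3
            calc ρ * 2 ^ 0 * 2 ^ j = ρ * (2 ^ j * 2 ^ 0) := by ring
              _ ≤ ρ * (S.N q * S.nm D) := by gcongr
              _ = _ := by ring
          rw [norm_mul, norm_mul, norm_mul, Complex.norm_real, Real.norm_of_nonneg (Real.exp_pos _).le]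
          calc ‖α q‖ * ‖β D‖ * ‖∏ q' ∈ D, X q' (W q).asIdeal‖ * Real.exp (-(ρ * S.N q * S.nm D))
              ≤ 1 * A ^ D.card * 1 * Real.exp (-(x * 2 ^ j)) := by
                have hA0 : 0 ≤ A ^ D.card := by
                  have : 0 ≤ A := by linarith
                  positivity
                gcongr
                · exact hα q
                · exact hβ D
            _ = _ := by ring
        refine (Finset.sum_le_sum h2).trans ?_
        rw [← Finset.sum_mul]
        refine mul_le_mul_of_nonneg_right ?_ (Real.exp_pos _).le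
        have h3 := hmods 0
        simp only [pow_zero, mul_one, Nat.cast_zero, zero_add, one_pow] at h3
        refine le_trans (Finset.sum_le_sum_of_subset_of_nonneg (Finset.filter_subset _ _)
          fun D _ _ => ?_) h3
        have : 0 ≤ A := by linarith
        positivity
      refine (norm_sum_le _ _).trans ?_
      refine (Finset.sum_le_sum h1).trans ?_
      rw [Finset.sum_const, nsmul_eq_mul]
      have hc1 : (Q.card : ℝ) ≤ 2 ^ (j + 1) * K₀ := by
        refine le_trans ?_ (card_blk S hche hj)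
        exact_mod_cast Finset.card_le_card hQb
      have hmin : (min ((0 : ℕ) : ℝ) (j : ℝ)) = 0 := by
        rw [Nat.cast_zero]
        exact min_eq_left (Nat.cast_nonneg _)
      rw [hmin]
      simp only [Nat.cast_zero, zero_add, one_pow, mul_one, neg_zero, zero_div, Real.rpow_zero]
      calc (Q.card : ℝ) * (K₂ * Real.exp (-(x * 2 ^ j)))
          ≤ (2 ^ (j + 1) * K₀) * (K₂ * Real.exp (-((2 : ℝ) ^ (0 + j) / (2 * Y)))) := by gcongr
        _ = (2 * K₀ * K₂) * 2 ^ j * Real.exp (-((2 : ℝ) ^ (0 + j) / (2 * Y))) := by ring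
        _ ≤ K * 2 ^ j * Real.exp (-((2 : ℝ) ^ (0 + j) / (2 * Y))) := by gcongr
        _ = _ := by rw [zero_add]
    · -- Abel summation
      set R : ℝ := K₂ * 2 ^ (i + j) * ((i : ℝ) + 1) ^ K₂ * (2 : ℝ) ^ (-(min i j : ℝ) / K₂) with hR
      have hR0 : 0 ≤ R := by positivity
      set TT : ℕ := 2 ^ (j + 1) with hTT
      set ff : Finset B → ℕ → ℝ := fun D t => Real.exp (-(ρ * t * S.nm D)) with hff
      have hmain : ∑ q ∈ Q, ∑ D ∈ JJ S Lo i, α q * β D * (∏ q' ∈ D, X q' (W q).asIdeal) *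
          (Real.exp (-(ρ * S.N q * S.nm D)) : ℂ) =
          ∑ t ∈ Finset.Ico (2 ^ j) TT, ∑ D ∈ JJ S Lo i,
            (β D * ((ff D t - ff D (t + 1) : ℝ) : ℂ)) *
              ∑ q ∈ Q.filter (fun q => S.N q ≤ t), α q * ∏ q' ∈ D, X q' (W q).asIdeal +
          ∑ D ∈ JJ S Lo i, (β D * (ff D TT : ℂ)) *
            ∑ q ∈ Q, α q * ∏ q' ∈ D, X q' (W q).asIdeal := by
        have e2 : ∀ q ∈ Q, ∀ D : Finset B, Real.exp (-(ρ * S.N q * S.nm D)) =
            ∑ t ∈ Finset.Ico (2 ^ j) TT, (if S.N q ≤ t then (ff D t - ff D (t + 1)) else 0) +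
              ff D TT := by
          intro q hq D
          have h1 : 2 ^ j ≤ S.N q := le_N S (hQb hq)
          have h2 : S.N q ≤ TT := (N_lt S (hQb hq)).le
          rw [← Finset.sum_filter]
          have e3 : (Finset.Ico (2 ^ j) TT).filter (fun t => S.N q ≤ t) =
              Finset.Ico (S.N q) TT := by
            ext t
            rw [Finset.mem_filter, Finset.mem_Ico, Finset.mem_Ico]
            omega
          rw [e3, sum_tel (ff D) h2, hff]
          ring
        calc ∑ q ∈ Q, ∑ D ∈ JJ S Lo i, α q * β D * (∏ q' ∈ D, X q' (W q).asIdeal) *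
            (Real.exp (-(ρ * S.N q * S.nm D)) : ℂ)
            = ∑ q ∈ Q, ∑ D ∈ JJ S Lo i, (∑ t ∈ Finset.Ico (2 ^ j) TT,
              (if S.N q ≤ t then (β D * ((ff D t - ff D (t + 1) : ℝ) : ℂ)) *
                (α q * ∏ q' ∈ D, X q' (W q).asIdeal) else 0) +
              (β D * (ff D TT : ℂ)) * (α q * ∏ q' ∈ D, X q' (W q).asIdeal)) := by
              refine Finset.sum_congr rfl fun q hq => Finset.sum_congr rfl fun D _ => ?_
              rw [e2 q hq D]
              push_cast
              rw [mul_add, Finset.mul_sum]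
              congr 1
              · refine Finset.sum_congr rfl fun t _ => ?_
                split_ifs
                · push_cast
                  ring
                · simp
              · ring
          _ = _ := by
              simp_rw [Finset.sum_add_distrib]
              congr 1
              · rw [Finset.sum_comm]
                have e4 : ∀ D ∈ JJ S Lo i, ∑ q ∈ Q, ∑ t ∈ Finset.Ico (2 ^ j) TT,
                    (if S.N q ≤ t then (β D * ((ff D t - ff D (t + 1) : ℝ) : ℂ)) *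
                      (α q * ∏ q' ∈ D, X q' (W q).asIdeal) else 0) =
                    ∑ t ∈ Finset.Ico (2 ^ j) TT, (β D * ((ff D t - ff D (t + 1) : ℝ) : ℂ)) *
                      ∑ q ∈ Q.filter (fun q => S.N q ≤ t), α q * ∏ q' ∈ D, X q' (W q).asIdeal := by
                  intro D _
                  rw [Finset.sum_comm]
                  refine Finset.sum_congr rfl fun t _ => ?_
                  rw [← Finset.sum_filter, Finset.mul_sum]
                rw [Finset.sum_congr rfl e4, Finset.sum_comm]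
              · rw [Finset.sum_comm]
                exact Finset.sum_congr rfl fun D _ => by rw [Finset.mul_sum]
      rw [hmain]
      -- the weights
      set w : ℕ → ℝ := fun t => Real.exp (-(x * t)) * (1 - Real.exp (-(2 * x))) with hw
      have hwpos : ∀ t, 0 < w t := by
        intro t
        have h1 : Real.exp (-(2 * x)) < 1 := Real.exp_lt_one_iff.2 (by linarith)
        exact mul_pos (Real.exp_pos _) (by linarith)
      have hwt : ∀ t : ℕ, ∀ D ∈ JJ S Lo i, ‖β D * ((ff D t - ff D (t + 1) : ℝ) : ℂ)‖ ≤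
          w t * A ^ D.card := by
        intro t D hD
        obtain ⟨h3, -, -⟩ := (mem_JJ S).1 hD
        have h9 : ((2 : ℝ) ^ i) ≤ S.nm D := by exact_mod_cast le_nm S h3
        have h10 : (S.nm D : ℝ) ≤ 2 ^ (i + 1) := by exact_mod_cast (nm_lt S h3).le
        have e5 : ff D t - ff D (t + 1) =
            Real.exp (-(ρ * t * S.nm D)) * (1 - Real.exp (-(ρ * S.nm D))) := by
          rw [hff, mul_sub, ← Real.exp_add, mul_one]
          congr 2
          push_cast
          ring_nf
        have h11 : Real.exp (-(ρ * t * S.nm D)) ≤ Real.exp (-(x * t)) := by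
          refine Real.exp_le_exp.2 ?_
          rw [neg_le_neg_iff, hx]
          calc ρ * 2 ^ i * t = ρ * t * 2 ^ i := by ring
            _ ≤ _ := by gcongr
        have h12 : 1 - Real.exp (-(ρ * S.nm D)) ≤ 1 - Real.exp (-(2 * x)) := by
          refine sub_le_sub_left (Real.exp_le_exp.2 ?_) _
          rw [neg_le_neg_iff, hx]
          calc ρ * S.nm D ≤ ρ * 2 ^ (i + 1) := by gcongr
            _ = _ := by ring
        have h13 : 0 ≤ 1 - Real.exp (-(ρ * S.nm D)) := by
          have : Real.exp (-(ρ * S.nm D)) ≤ 1 := Real.exp_le_one_iff.2 (by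
            rw [neg_nonpos]; positivity)
          linarith
        rw [norm_mul, Complex.norm_real, e5, Real.norm_of_nonneg (mul_nonneg (Real.exp_pos _).le h13)]
        calc ‖β D‖ * (Real.exp (-(ρ * t * S.nm D)) * (1 - Real.exp (-(ρ * S.nm D))))
            ≤ A ^ D.card * (Real.exp (-(x * t)) * (1 - Real.exp (-(2 * x)))) := by
              have hA0 : 0 ≤ A ^ D.card := by
                have : 0 ≤ A := by linarith
                positivity
              gcongr
              exact hβ D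
          _ = _ := by rw [hw]; ring
      have hlast : ∀ D ∈ JJ S Lo i, ‖β D * (ff D TT : ℂ)‖ ≤
          Real.exp (-(x * 2 ^ j)) * A ^ D.card := by
        intro D hD
        obtain ⟨h3, -, -⟩ := (mem_JJ S).1 hD
        have h9 : ((2 : ℝ) ^ i) ≤ S.nm D := by exact_mod_cast le_nm S h3
        rw [norm_mul, Complex.norm_real, hff, Real.norm_of_nonneg (Real.exp_pos _).le]
        have h11 : Real.exp (-(ρ * TT * S.nm D)) ≤ Real.exp (-(x * 2 ^ j)) := by
          refine Real.exp_le_exp.2 ?_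
          rw [neg_le_neg_iff, hx, hTT]
          push_cast
          calc ρ * 2 ^ i * 2 ^ j = ρ * 2 ^ j * 2 ^ i := by ring
            _ ≤ ρ * 2 ^ (j + 1) * S.nm D := by
              gcongr
              · norm_num
              · omega
        rw [mul_comm]
        exact mul_le_mul h11 (hβ D) (norm_nonneg _) (Real.exp_pos _).le
      have hS1 : ∀ t ∈ Finset.Ico (2 ^ j) TT, ‖∑ D ∈ JJ S Lo i,
            (β D * ((ff D t - ff D (t + 1) : ℝ) : ℂ)) *
              ∑ q ∈ Q.filter (fun q => S.N q ≤ t), α q * ∏ q' ∈ D, X q' (W q).asIdeal‖ ≤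
          w t * R := by
        intro t _
        refine claim_scale S hA (fun β' hβ' => ?_) (hwpos t) _ (hwt t)
        exact hcl nn Up Lo W X h i j α β' (Q.filter (fun q => S.N q ≤ t)) hi hj hα hβ'
          ((Finset.filter_subset _ _).trans hQb) (fun q hq => hQU q (Finset.mem_filter.1 hq).1)
      have hS2 : ‖∑ D ∈ JJ S Lo i, (β D * (ff D TT : ℂ)) *
            ∑ q ∈ Q, α q * ∏ q' ∈ D, X q' (W q).asIdeal‖ ≤ Real.exp (-(x * 2 ^ j)) * R := by
        refine claim_scale S hA (fun β' hβ' => ?_) (Real.exp_pos _) _ hlast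
        exact hcl nn Up Lo W X h i j α β' Q hi hj hα hβ' hQb hQU
      have hsumw : ∑ t ∈ Finset.Ico (2 ^ j) TT, w t ≤ 2 * Real.exp (-(x * 2 ^ j)) := by
        have e6 : ∀ t : ℕ, w t = (1 + Real.exp (-x)) *
            (Real.exp (-(x * t)) - Real.exp (-(x * (t + 1 : ℕ)))) := by
          intro t
          have e7 : Real.exp (-(2 * x)) = Real.exp (-x) * Real.exp (-x) := by
            rw [← Real.exp_add]
            ring_nf
          have e8 : Real.exp (-(x * (t + 1 : ℕ))) = Real.exp (-(x * t)) * Real.exp (-x) := by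
            rw [← Real.exp_add]
            push_cast
            ring_nf
          rw [hw]
          simp only
          rw [e7, e8]
          ring
        rw [Finset.sum_congr rfl fun t _ => e6 t, ← Finset.mul_sum,
          sum_tel (fun t : ℕ => Real.exp (-(x * t)))
            (by rw [hTT]; exact Nat.pow_le_pow_right (by norm_num) (by omega))]
        have h1 : Real.exp (-x) ≤ 1 := Real.exp_le_one_iff.2 (by linarith)
        have h2 : 0 < Real.exp (-x) := Real.exp_pos _
        have h3 : 0 < Real.exp (-(x * (TT : ℕ))) := Real.exp_pos _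
        have h4 : 0 < Real.exp (-(x * ((2 ^ j : ℕ) : ℝ))) := Real.exp_pos _
        push_cast at h3 h4 ⊢
        nlinarith
      calc ‖∑ t ∈ Finset.Ico (2 ^ j) TT, ∑ D ∈ JJ S Lo i,
            (β D * ((ff D t - ff D (t + 1) : ℝ) : ℂ)) *
              ∑ q ∈ Q.filter (fun q => S.N q ≤ t), α q * ∏ q' ∈ D, X q' (W q).asIdeal +
          ∑ D ∈ JJ S Lo i, (β D * (ff D TT : ℂ)) *
            ∑ q ∈ Q, α q * ∏ q' ∈ D, X q' (W q).asIdeal‖
          ≤ ∑ t ∈ Finset.Ico (2 ^ j) TT, w t * R + Real.exp (-(x * 2 ^ j)) * R :=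
            (norm_add_le _ _).trans (add_le_add
              ((norm_sum_le _ _).trans (Finset.sum_le_sum hS1)) hS2)
        _ = (∑ t ∈ Finset.Ico (2 ^ j) TT, w t + Real.exp (-(x * 2 ^ j))) * R := by
            rw [← Finset.sum_mul]
            ring
        _ ≤ (3 * Real.exp (-(x * 2 ^ j))) * R := by
            refine mul_le_mul_of_nonneg_right ?_ hR0
            linarith
        _ ≤ (3 * Real.exp (-((2 : ℝ) ^ (i + j) / (2 * Y)))) * R := by gcongr
        _ ≤ (3 * Real.exp (-((2 : ℝ) ^ (i + j) / (2 * Y)))) *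
            (K₂ * 2 ^ (i + j) * ((i : ℝ) + 1) ^ K * (2 : ℝ) ^ (-(min i j : ℝ) / K)) := by
            refine mul_le_mul_of_nonneg_left ?_ (by positivity)
            exact bound_mono hK₂1 hKK
        _ = (3 * K₂) * 2 ^ (i + j) * ((i : ℝ) + 1) ^ K * (2 : ℝ) ^ (-(min i j : ℝ) / K) *
            Real.exp (-((2 : ℝ) ^ (i + j) / (2 * Y))) := by ring
        _ ≤ _ := by gcongr
  convert goal2 using 2

end Pool.Agent.Helper51.PP
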