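import Pool.Agent.Helper51.PP.PWG
import Pool.Agent.Helper51.PP.BIL

/-!
# Project PP, packet A2-GEN, part 1: correlations and moments
-/

namespace Pool.Agent.Helper51.PP

open NumberField IsDedekindDomain ComplexConjugate
open Pool.Agent.Helper17.PP (Sys)

section

variable {p : ℕ} {B B₀ k U Λ C : Type} [Field k] [AddCommGroup U] [Module k U]
    [AddCommGroup Λ] [Module k Λ] [AddCommGroup C] (S : Sys p B B₀ k U Λ C)

theorem mem_blk {j : ℕ} {q : B} : q ∈ S.blk j ↔ S.bl q = j := by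
  classical
  rw [Sys.blk, Finset.mem_filter]
  refine ⟨fun h => h.2, fun h => ⟨?_, h⟩⟩
  rw [Set.Finite.mem_toFinset, Set.mem_ofPred_eq]
  rw [← h]
  exact (Nat.lt_pow_succ_log_self (by norm_num) _).le

theorem N_ne (q : B) : S.N q ≠ 0 := by
  have := S.two_le q
  omega

theorem N_pos (q : B) : (0 : ℝ) < S.N q := by
  have := S.two_le q
  exact_mod_cast (by omega : 0 < S.N q)

theorem le_N {j : ℕ} {q : B} (h : q ∈ S.blk j) : 2 ^ j ≤ S.N q := by
  rw [mem_blk] at h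
  rw [← h]
  exact Nat.pow_log_le_self 2 (N_ne S q)

theorem N_lt {j : ℕ} {q : B} (h : q ∈ S.blk j) : S.N q < 2 ^ (j + 1) := by
  rw [mem_blk] at h
  rw [← h]
  exact Nat.lt_pow_succ_log_self (by norm_num) _

theorem card_blk {K₀ : ℕ} (hche : ∀ j : ℕ, 1 ≤ j → ∑ q ∈ S.blk j, (1 : ℝ) / S.N q ≤ K₀ / j)
    {j : ℕ} (hj : 1 ≤ j) : ((S.blk j).card : ℝ) ≤ 2 ^ (j + 1) * K₀ := by
  have h1 := hche j hj
  have h2 : ((S.blk j).card : ℝ) * (1 / 2 ^ (j + 1)) ≤ ∑ q ∈ S.blk j, (1 : ℝ) / S.N q := by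
    rw [← nsmul_eq_mul]
    refine Finset.card_nsmul_le_sum _ _ _ fun q hq => ?_
    have h3 : (S.N q : ℝ) ≤ 2 ^ (j + 1) := by exact_mod_cast (N_lt S hq).le
    exact one_div_le_one_div_of_le (N_pos S q) h3
  have h4 : (K₀ : ℝ) / j ≤ K₀ := div_le_self (by positivity) (by exact_mod_cast hj)
  have h5 : ((S.blk j).card : ℝ) * (1 / 2 ^ (j + 1)) ≤ K₀ := by linarith
  rw [mul_one_div, div_le_iff₀ (by positivity)] at h5
  linarith

theorem nm_pos (D : Finset B) : 0 < S.nm D :=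
  Finset.prod_pos fun q _ => Nat.pos_of_ne_zero (N_ne S q)

theorem two_pow_card_le (D : Finset B) : 2 ^ D.card ≤ S.nm D := by
  rw [Sys.nm]
  calc 2 ^ D.card = ∏ _q ∈ D, 2 := by rw [Finset.prod_const]
    _ ≤ ∏ q ∈ D, S.N q := Finset.prod_le_prod' fun q _ => S.two_le q

theorem le_nm {i : ℕ} {D : Finset B} (h : D ∈ S.mods i) : 2 ^ i ≤ S.nm D := by
  classical
  rw [Sys.mods, Finset.mem_filter] at h
  rw [← h.2]
  exact Nat.pow_log_le_self 2 (nm_pos S D).ne'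

theorem nm_lt {i : ℕ} {D : Finset B} (h : D ∈ S.mods i) : S.nm D < 2 ^ (i + 1) := by
  classical
  rw [Sys.mods, Finset.mem_filter] at h
  rw [← h.2]
  exact Nat.lt_pow_succ_log_self (by norm_num) _

theorem card_le {i : ℕ} {D : Finset B} (h : D ∈ S.mods i) : D.card ≤ i := by
  have h1 := (two_pow_card_le S D).trans_lt (nm_lt S h)
  have h2 := (Nat.pow_lt_pow_iff_right (by norm_num : 1 < 2)).1 h1
  omega

theorem nonempty_of_mods {i : ℕ} (hi : 1 ≤ i) {D : Finset B} (h : D ∈ S.mods i) :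
    D.Nonempty := by
  rw [Finset.nonempty_iff_ne_empty]
  rintro rfl
  have h1 := le_nm S h
  rw [Sys.nm, Finset.prod_empty] at h1
  have h2 : 2 ^ 1 ≤ 2 ^ i := Nat.pow_le_pow_right (by norm_num) hi
  omega

open Classical in
/-- The moduli of a character system. -/
noncomputable def JJ (Lo : Set B) (i : ℕ) : Finset (Finset B) :=
  (S.mods i).filter fun D => Set.InjOn S.bs (D : Set B) ∧ ∀ q ∈ D, q ∈ Lo

theorem mem_JJ {Lo : Set B} {i : ℕ} {D : Finset B} : D ∈ JJ S Lo i ↔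
    D ∈ S.mods i ∧ Set.InjOn S.bs (D : Set B) ∧ ∀ q ∈ D, q ∈ Lo := by
  classical
  rw [JJ, Finset.mem_filter]

variable {F : Type} [Field F] [NumberField F] {𝔪₀ : Ideal (𝓞 F)} {nn : B → Ideal (𝓞 F)} {d : ℕ}
  {Up Lo : Set B} {W : B → HeightOneSpectrum (𝓞 F)} {X : B → Ideal (𝓞 F) → ℂ}

/-- norm of the modulus of `D` -/
theorem norm_mod (h : Chs S F 𝔪₀ nn d Up Lo W X) {i : ℕ} (hi : 1 ≤ i) {D : Finset B}
    (hD : D ∈ JJ S Lo i) :
    Ideal.absNorm (∏ q ∈ D, (𝔪₀ * nn q)) ≤ (Ideal.absNorm 𝔪₀ * 4 ^ d) ^ i := by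
  obtain ⟨h1, -, h3⟩ := (mem_JJ S).1 hD
  have hm : 1 ≤ Ideal.absNorm 𝔪₀ := by
    have : Ideal.absNorm 𝔪₀ ≠ 0 := by
      rw [Ne, Ideal.absNorm_eq_zero_iff]
      exact h.m0
    omega
  rw [map_prod]
  calc ∏ q ∈ D, Ideal.absNorm (𝔪₀ * nn q) ≤ ∏ q ∈ D, (Ideal.absNorm 𝔪₀ * S.N q ^ d) := by
        refine Finset.prod_le_prod' fun q hq => ?_
        rw [map_mul]
        exact Nat.mul_le_mul_left _ (h.nne q (h3 q hq)).2.2
    _ = Ideal.absNorm 𝔪₀ ^ D.card * S.nm D ^ d := by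
        rw [Finset.prod_mul_distrib, Finset.prod_const, Finset.prod_pow, Sys.nm]
    _ ≤ Ideal.absNorm 𝔪₀ ^ i * (4 ^ i) ^ d := by
        refine Nat.mul_le_mul (Nat.pow_le_pow_right hm (card_le S h1)) ?_
        refine Nat.pow_le_pow_left ?_ d
        refine (nm_lt S h1).le.trans ?_
        calc 2 ^ (i + 1) ≤ 2 ^ (2 * i) := Nat.pow_le_pow_right (by norm_num) (by omega)
          _ = 4 ^ i := by
            rw [pow_mul]
            norm_num
    _ = _ := by rw [mul_pow, ← pow_mul, ← pow_mul, mul_comm i d]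

end

end Pool.Agent.Helper51.PP
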