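import Pool.Agent.Helper51.PP.GEN1

/-!
# Project PP, packet A2-GEN, part 2: the moment estimate
-/

namespace Pool.Agent.Helper51.PP

open NumberField IsDedekindDomain ComplexConjugate
open Pool.Agent.Helper17.PP (Sys)

section

variable {p : ℕ} {B B₀ k U Λ C : Type} [Field k] [AddCommGroup U] [Module k U]
    [AddCommGroup Λ] [Module k Λ] [AddCommGroup C] (S : Sys p B B₀ k U Λ C)
variable {F : Type} [Field F] [NumberField F] {𝔪₀ : Ideal (𝓞 F)} {nn : B → Ideal (𝓞 F)} {d : ℕ}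
  {Up Lo : Set B} {W : B → HeightOneSpectrum (𝓞 F)} {X : B → Ideal (𝓞 F) → ℂ}

/-- The exponential weight. -/
noncomputable def wt (F : Type) [Field F] [NumberField F] (Z : ℝ) (I : Ideal (𝓞 F)) : ℝ :=
  Real.exp (-(Ideal.absNorm I : ℝ) / Z)

theorem wt_nonneg (Z : ℝ) (I : Ideal (𝓞 F)) : 0 ≤ wt F Z I := (Real.exp_pos _).le

/-- the full exponential sum -/
theorem tsum_wt {C₃ : ℝ} (hs : ∀ Z : ℝ, 0 < Z → Summable fun I : Ideal (𝓞 F) ↦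
      Real.exp (-(Ideal.absNorm I : ℝ) / Z))
    (hC : ∀ Z : ℝ, 0 < Z → ∑' I : {I : Ideal (𝓞 F) // I ≠ ⊥},
      Real.exp (-(Ideal.absNorm I.1 : ℝ) / Z) ≤ C₃ * Z) {Z : ℝ} (hZ : 1 ≤ Z) :
    ∑' I, wt F Z I ≤ (C₃ + 1) * Z := by
  have hZ0 : 0 < Z := by linarith
  have h1 := (hs Z hZ0).tsum_subtype_add_tsum_subtype_compl {(⊥ : Ideal (𝓞 F))}
  have h2 : ∑' I : ({(⊥ : Ideal (𝓞 F))} : Set (Ideal (𝓞 F))),
      Real.exp (-(Ideal.absNorm I.1 : ℝ) / Z) = 1 := by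
    rw [tsum_singleton (⊥ : Ideal (𝓞 F))
      (fun I : Ideal (𝓞 F) => Real.exp (-(Ideal.absNorm I : ℝ) / Z))]
    simp
  have h3 : ∑' I : ({(⊥ : Ideal (𝓞 F))}ᶜ : Set (Ideal (𝓞 F))),
      Real.exp (-(Ideal.absNorm I.1 : ℝ) / Z) ≤ C₃ * Z := hC Z hZ0
  have h4 : ∑' I, wt F Z I = ∑' I : Ideal (𝓞 F), Real.exp (-(Ideal.absNorm I : ℝ) / Z) := rfl
  rw [h4, ← h1, h2]
  linarith

/-- trivial bound for a correlation -/
theorem corr_le {Z : ℝ} (hs : Summable fun I : Ideal (𝓞 F) => wt F Z I)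
    {f g : Ideal (𝓞 F) → ℂ} (hf : ∀ I, ‖f I‖ ≤ 1) (hg : ∀ I, ‖g I‖ ≤ 1) :
    ‖∑' I, f I * conj (g I) * (wt F Z I : ℂ)‖ ≤ ∑' I, wt F Z I := by
  have h1 : ∀ I, ‖f I * conj (g I) * (wt F Z I : ℂ)‖ ≤ wt F Z I := by
    intro I
    rw [norm_mul, norm_mul, RCLike.norm_conj, Complex.norm_real,
      Real.norm_of_nonneg (wt_nonneg Z I)]
    have h1 := mul_le_mul (hf I) (hg I) (norm_nonneg _) zero_le_one
    calc ‖f I‖ * ‖g I‖ * wt F Z I ≤ 1 * 1 * wt F Z I :=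
          mul_le_mul_of_nonneg_right h1 (wt_nonneg Z I)
      _ = wt F Z I := by ring
  have h2 : Summable fun I => ‖f I * conj (g I) * (wt F Z I : ℂ)‖ :=
    Summable.of_nonneg_of_le (fun I => norm_nonneg _) h1 hs
  exact (norm_tsum_le_tsum_norm h2).trans (Summable.tsum_le_tsum h1 h2 hs)

/-- correlation of the characters of different base sets -/
theorem corr_diff (hcrt : A2_CRT) (h : Chs S F 𝔪₀ nn d Up Lo W X) {c C₁ : ℝ}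
    (hC₁ : 1 ≤ C₁)
    (hU : ∀ (𝔪 : Ideal (𝓞 F)) (χ : Ideal (𝓞 F) → ℂ), RC 𝔪 χ →
    (∃ α : 𝓞 F, α ≠ 0 ∧ Ideal.span {α} ⊔ 𝔪 = ⊤ ∧ χ (Ideal.span {α}) ≠ 1) →
    ∀ Z : ℝ, 1 ≤ Z →
      ‖∑' I : Ideal (𝓞 F), χ I * (Real.exp (-(Ideal.absNorm I : ℝ) / Z) : ℂ)‖ ≤
        C₁ * (Ideal.absNorm 𝔪 : ℝ) ^ C₁ * Z ^ (1 - c)) {i : ℕ} (hi : 1 ≤ i) {D D' : Finset B}
    (hD : D ∈ JJ S Lo i) (hD' : D' ∈ JJ S Lo i)
    (hne : S.bs '' (D : Set B) ≠ S.bs '' (D' : Set B)) {Z : ℝ} (hZ : 1 ≤ Z) :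
    ‖∑' I, (∏ q ∈ D, X q I) * conj (∏ q ∈ D', X q I) * (wt F Z I : ℂ)‖ ≤
      C₁ * ((Ideal.absNorm 𝔪₀ * 4 ^ d : ℕ) : ℝ) ^ (2 * i * C₁) * Z ^ (1 - c) := by
  obtain ⟨h1, h2, h3⟩ := (mem_JJ S).1 hD
  obtain ⟨h1', h2', h3'⟩ := (mem_JJ S).1 hD'
  obtain ⟨hc1, hc2⟩ := hcrt p B B₀ k U Λ C S F 𝔪₀ nn d Up Lo W X h
  have r1 := hc1 D h3 (nonempty_of_mods S hi h1)
  have r2 := hc1 D' h3' (nonempty_of_mods S hi h1')
  obtain ⟨α, ha, hcop, hval⟩ := hc2 D D' h3 h3' h2 h2' hne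
  have r3 := r1.ratio r2
  have h4 := hU _ _ r3 ⟨α, ha, hcop, by
    intro h5
    apply hval
    have h6 : ‖∏ q ∈ D', X q (Ideal.span {α})‖ = 1 := by
      refine r2.cop _ (by rwa [Ne, Ideal.span_singleton_eq_bot]) ?_
      rw [eq_top_iff, ← hcop]
      exact sup_le_sup_left Ideal.mul_le_right _
    have h7 : (∏ q ∈ D', X q (Ideal.span {α})) * conj (∏ q ∈ D', X q (Ideal.span {α})) = 1 := by
      rw [Complex.mul_conj, Complex.normSq_eq_norm_sq, h6]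
      norm_num
    calc ∏ q ∈ D, X q (Ideal.span {α}) = (∏ q ∈ D, X q (Ideal.span {α})) *
          ((∏ q ∈ D', X q (Ideal.span {α})) * conj (∏ q ∈ D', X q (Ideal.span {α}))) := by
          rw [h7, mul_one]
      _ = ((∏ q ∈ D, X q (Ideal.span {α})) * conj (∏ q ∈ D', X q (Ideal.span {α}))) *
          ∏ q ∈ D', X q (Ideal.span {α}) := by ring
      _ = _ := by rw [h5, one_mul]⟩ Z hZ
  refine h4.trans ?_
  have h5 : ((Ideal.absNorm ((∏ q ∈ D, (𝔪₀ * nn q)) * ∏ q ∈ D', (𝔪₀ * nn q)) : ℕ) : ℝ) ≤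
      ((Ideal.absNorm 𝔪₀ * 4 ^ d : ℕ) : ℝ) ^ (2 * i) := by
    have h6 := norm_mod S h hi hD
    have h7 := norm_mod S h hi hD'
    rw [map_mul]
    have h8 := Nat.mul_le_mul h6 h7
    rw [← pow_add, ← two_mul] at h8
    exact_mod_cast h8
  have h9 : ((Ideal.absNorm ((∏ q ∈ D, (𝔪₀ * nn q)) * ∏ q ∈ D', (𝔪₀ * nn q)) : ℕ) : ℝ) ^ C₁ ≤
      ((Ideal.absNorm 𝔪₀ * 4 ^ d : ℕ) : ℝ) ^ (2 * i * C₁) := by
    have h10 := Real.rpow_le_rpow (Nat.cast_nonneg _) h5 (by linarith : 0 ≤ C₁)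
    refine h10.trans (le_of_eq ?_)
    rw [← Real.rpow_natCast, ← Real.rpow_mul (Nat.cast_nonneg _)]
    push_cast
    ring_nf
  have hZ0 : 0 ≤ Z ^ (1 - c) := by positivity
  have hC₁0 : 0 ≤ C₁ := by linarith
  exact mul_le_mul_of_nonneg_right (mul_le_mul_of_nonneg_left h9 hC₁0) hZ0

end

end Pool.Agent.Helper51.PP
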