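import Pool.Agent.Helper51.PP.GEN2

/-!
# Project PP, packet A2-GEN, part 3: the moment estimate
-/

namespace Pool.Agent.Helper51.PP

open NumberField IsDedekindDomain ComplexConjugate
open Pool.Agent.Helper17.PP (Sys)

section

variable {p : ℕ} {B B₀ k U Λ C : Type} [Field k] [AddCommGroup U] [Module k U]
    [AddCommGroup Λ] [Module k Λ] [AddCommGroup C] (S : Sys p B B₀ k U Λ C)
variable {F : Type} [Field F] [NumberField F] {𝔪₀ : Ideal (𝓞 F)} {nn : B → Ideal (𝓞 F)} {d : ℕ}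
  {Up Lo : Set B} {W : B → HeightOneSpectrum (𝓞 F)} {X : B → Ideal (𝓞 F) → ℂ}

/-- the moment estimate with the Schur bound `K₃ 2^(i/4) H + |J| E` -/
theorem moment (hrep : A2_REP) (hcrt : A2_CRT) (h : Chs S F 𝔪₀ nn d Up Lo W X) {c C₁ : ℝ}
    (hC₁ : 1 ≤ C₁)
    (hU : ∀ (𝔪 : Ideal (𝓞 F)) (χ : Ideal (𝓞 F) → ℂ), RC 𝔪 χ →
    (∃ α : 𝓞 F, α ≠ 0 ∧ Ideal.span {α} ⊔ 𝔪 = ⊤ ∧ χ (Ideal.span {α}) ≠ 1) →
    ∀ Z : ℝ, 1 ≤ Z →
      ‖∑' I : Ideal (𝓞 F), χ I * (Real.exp (-(Ideal.absNorm I : ℝ) / Z) : ℂ)‖ ≤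
        C₁ * (Ideal.absNorm 𝔪 : ℝ) ^ C₁ * Z ^ (1 - c)) {C₃ : ℝ} (hC₃ : 0 < C₃)
    (hs : ∀ Z : ℝ, 0 < Z → Summable fun I : Ideal (𝓞 F) ↦
      Real.exp (-(Ideal.absNorm I : ℝ) / Z))
    (hexp : ∀ Z : ℝ, 0 < Z → ∑' I : {I : Ideal (𝓞 F) // I ≠ ⊥},
      Real.exp (-(Ideal.absNorm I.1 : ℝ) / Z) ≤ C₃ * Z) {K₃ : ℝ} (hK₃ : 0 < K₃)
    (hfib : ∀ (i : ℕ) (D : Finset B) (𝒟 : Finset (Finset B)), D ∈ S.mods i →
      (∀ D' ∈ 𝒟, Set.InjOn S.bs (D' : Set B) ∧ S.bs '' (D' : Set B) = S.bs '' (D : Set B)) →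
      (𝒟.card : ℝ) ≤ K₃ * (2 : ℝ) ^ ((i : ℝ) / 4)) {i j r : ℕ} (hi : 1 ≤ i) (Q : Finset B)
    (hQ : ∀ q ∈ Q, q ∈ Up ∧ S.N q ≤ 2 ^ (j + 1)) (α : B → ℂ) (hα : ∀ q, ‖α q‖ ≤ 1) :
    ∑ D ∈ JJ S Lo i, ‖∑ q ∈ Q, α q * ∏ q' ∈ D, X q' (W q).asIdeal‖ ^ (2 * r) ≤
      Real.exp 1 * (K₃ * (2 : ℝ) ^ ((i : ℝ) / 4) * ((C₃ + 1) * ((2 : ℝ) ^ (j + 1)) ^ r) +
        (JJ S Lo i).card * (C₁ * ((Ideal.absNorm 𝔪₀ * 4 ^ d : ℕ) : ℝ) ^ (2 * i * C₁) *
          (((2 : ℝ) ^ (j + 1)) ^ r) ^ (1 - c))) * r.factorial * (Q.card : ℝ) ^ r := by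
  classical
  set Z : ℝ := ((2 : ℝ) ^ (j + 1)) ^ r with hZdef
  have hZ : 1 ≤ Z := one_le_pow₀ (one_le_pow₀ (by norm_num))
  have hZ0 : 0 < Z := by linarith
  set H : ℝ := (C₃ + 1) * Z with hH
  set E : ℝ := C₁ * ((Ideal.absNorm 𝔪₀ * 4 ^ d : ℕ) : ℝ) ^ (2 * i * C₁) * Z ^ (1 - c) with hE
  have hH0 : 0 ≤ H := by positivity
  have hE0 : 0 ≤ E := by
    have : 0 ≤ C₁ := by linarith
    positivity
  obtain ⟨hc1, hc2⟩ := hcrt p B B₀ k U Λ C S F 𝔪₀ nn d Up Lo W X h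
  have hrc : ∀ D : {D // D ∈ JJ S Lo i},
      RC (∏ q ∈ D.1, (𝔪₀ * nn q)) (fun I ↦ ∏ q ∈ D.1, X q I) := by
    intro D
    obtain ⟨h1, -, h3⟩ := (mem_JJ S).1 D.2
    exact hc1 D.1 h3 (nonempty_of_mods S hi h1)
  -- the coefficients on primes of `F`
  set a : HeightOneSpectrum (𝓞 F) → ℂ := fun v =>
    if hv : ∃ q ∈ Q, W q = v then α hv.choose else 0 with ha
  have haW : ∀ q ∈ Q, a (W q) = α q := by
    intro q hq
    have hv : ∃ q' ∈ Q, W q' = W q := ⟨q, hq, rfl⟩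
    rw [ha]
    simp only
    rw [dif_pos hv]
    congr 1
    exact h.inj (hQ _ hv.choose_spec.1).1 (hQ q hq).1 hv.choose_spec.2
  have ha1 : ∀ v, ‖a v‖ ≤ 1 := by
    intro v
    rw [ha]
    simp only
    split_ifs with hv
    · exact hα _
    · rw [norm_zero]
      exact zero_le_one
  have hinj : Set.InjOn W (Q : Set B) := fun q hq q' hq' e =>
    h.inj (hQ q hq).1 (hQ q' hq').1 e
  have key := a2_pwg hrep F {D // D ∈ JJ S Lo i} (wt F Z)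
    (fun D I => ∏ q ∈ D.1, X q I)
    (K₃ * (2 : ℝ) ^ ((i : ℝ) / 4) * H + (JJ S Lo i).card * E) (Real.exp 1) r (Q.image W) a
    (wt_nonneg Z) (hs Z hZ0) (by positivity) (Real.exp_pos _).le
    (fun D I => (hrc D).norm_le I) (fun D => (hrc D).top) (fun D m n => (hrc D).mul m n) ?_ ?_
    (fun q _ => ha1 q)
  · rw [Finset.card_image_of_injOn hinj] at key
    rw [← Finset.sum_coe_sort (JJ S Lo i)]
    refine le_trans (le_of_eq (Finset.sum_congr rfl fun D _ => ?_)) key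
    congr 2
    rw [Finset.sum_image hinj]
    exact Finset.sum_congr rfl fun q hq => by rw [haW q hq]
  · -- Schur bound
    intro D
    have e1 : ∀ D' : {D // D ∈ JJ S Lo i},
        ‖∑' n, (∏ q ∈ D.1, X q n) * (starRingEnd ℂ) (∏ q ∈ D'.1, X q n) * (wt F Z n : ℂ)‖ ≤
          (if S.bs '' (D'.1 : Set B) = S.bs '' (D.1 : Set B) then H else 0) + E := by
      intro D'
      split_ifs with he
      · have h1 := corr_le (F := F) (Z := Z) (hs Z hZ0) (fun I => (hrc D).norm_le I)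
          (fun I => (hrc D').norm_le I)
        have h2 := tsum_wt hs hexp hZ
        linarith
      · have h1 := corr_diff S hcrt h hC₁ hU hi D.2 D'.2 (fun e => he e.symm) hZ
        linarith
    refine (Finset.sum_le_sum fun D' _ => e1 D').trans ?_
    rw [Finset.sum_add_distrib, ← Finset.sum_filter, Finset.sum_const, Finset.sum_const,
      nsmul_eq_mul, nsmul_eq_mul, Finset.card_univ, Fintype.card_coe]
    refine add_le_add ?_ le_rfl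
    refine mul_le_mul_of_nonneg_right ?_ hH0
    have h4 := hfib i D.1 ((Finset.univ.filter fun D' : {D // D ∈ JJ S Lo i} =>
      S.bs '' (D'.1 : Set B) = S.bs '' (D.1 : Set B)).image Subtype.val)
      ((mem_JJ S).1 D.2).1 (by
        intro D' hD'
        obtain ⟨D'', h5, rfl⟩ := Finset.mem_image.1 hD'
        exact ⟨((mem_JJ S).1 D''.2).2.1, (Finset.mem_filter.1 h5).2⟩)
    rwa [Finset.card_image_of_injective _ Subtype.val_injective] at h4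
  · -- the weight of a product of `r` primes
    intro v hv
    have h1 : (Ideal.absNorm (∏ i, (v i).asIdeal) : ℝ) ≤ Z := by
      rw [map_prod]
      push_cast
      rw [hZdef]
      calc ∏ i, (Ideal.absNorm (v i).asIdeal : ℝ) ≤ ∏ _i : Fin r, (2 : ℝ) ^ (j + 1) := by
            refine Finset.prod_le_prod (fun i _ => Nat.cast_nonneg _) fun i _ => ?_
            obtain ⟨q, hq, hqv⟩ := Finset.mem_image.1 (hv i)
            rw [← hqv, h.nW q (hQ q hq).1]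
            exact_mod_cast (hQ q hq).2
        _ = _ := by simp
    rw [wt, ← Real.exp_add]
    refine Real.one_le_exp ?_
    have h2 : (Ideal.absNorm (∏ i, (v i).asIdeal) : ℝ) / Z ≤ 1 := (div_le_one hZ0).2 h1
    rw [neg_div]
    linarith

end

end Pool.Agent.Helper51.PP
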