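import Pool.Agent.Helper51.PP.GEN3

/-!
# Project PP, packet A2-GEN, part 4: the bound without weight
-/

namespace Pool.Agent.Helper51.PP

open NumberField IsDedekindDomain ComplexConjugate
open Pool.Agent.Helper17.PP (Sys)

theorem num_bound {C' : ℝ} (hC : 1 ≤ C') {K₄ : ℕ} (hK : 6 * C' ≤ K₄) {i j r : ℕ}
    (hi : 1 ≤ i) (hr : r = max 1 ⌈C' * i / (j + 1)⌉₊) :
    √(r : ℝ) * (2 : ℝ) ^ (-(3 * (i : ℝ) / (8 * r))) ≤
      (1 + C') * (i + 1) * (2 : ℝ) ^ (-(min i j : ℝ) / K₄) := by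
  have hr1 : 1 ≤ r := by rw [hr]; exact le_max_left _ _
  have hrR : (1 : ℝ) ≤ r := by exact_mod_cast hr1
  have hiR : (1 : ℝ) ≤ i := by exact_mod_cast hi
  have hK0 : (0 : ℝ) < K₄ := by linarith
  have hj0 : (0 : ℝ) < (j : ℝ) + 1 := by positivity
  have hy0 : 0 ≤ C' * i / (j + 1) := by positivity
  have hyle : C' * i / (j + 1) ≤ C' * i := by
    refine div_le_self (by positivity) ?_
    have : (0 : ℝ) ≤ j := Nat.cast_nonneg _
    linarith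
  have h1 : (r : ℝ) ≤ (1 + C') * (i + 1) := by
    have h2 : (⌈C' * i / (j + 1)⌉₊ : ℝ) < C' * i / (j + 1) + 1 := Nat.ceil_lt_add_one hy0
    have h3 : (r : ℝ) = max 1 (⌈C' * i / (j + 1)⌉₊ : ℝ) := by
      rw [hr]
      push_cast
      rfl
    rw [h3]
    refine max_le ?_ ?_
    · nlinarith
    · nlinarith
  have h2 : √(r : ℝ) ≤ (1 + C') * (i + 1) := by
    refine le_trans ?_ h1
    rw [Real.sqrt_le_left (by linarith)]
    nlinarith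
  refine mul_le_mul h2 ?_ (by positivity) (by positivity)
  refine Real.rpow_le_rpow_of_exponent_le (by norm_num) ?_
  rw [neg_div, neg_le_neg_iff]
  rcases Nat.lt_or_ge 1 r with h | h
  · -- `r ≥ 2`
    have h4 : r = ⌈C' * i / (j + 1)⌉₊ := by
      rcases max_choice 1 ⌈C' * (i : ℝ) / (j + 1)⌉₊ with h5 | h5
      · rw [h5] at hr
        omega
      · rw [h5] at hr
        exact hr
    have h5 : ((r - 1 : ℕ) : ℝ) < C' * i / (j + 1) := by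
      rw [← Nat.lt_ceil, ← h4]
      omega
    rw [Nat.cast_sub hr1, Nat.cast_one, lt_div_iff₀ hj0] at h5
    have h6 : (2 : ℝ) ≤ r := by exact_mod_cast h
    have h7 : (r : ℝ) * (j + 1) < 2 * (C' * i) := by nlinarith
    have h8 : (min (i : ℝ) (j : ℝ)) ≤ j := min_le_right _ _
    calc (min (i : ℝ) (j : ℝ)) / K₄ ≤ j / (6 * C') := by
          refine div_le_div₀ (Nat.cast_nonneg _) h8 (by linarith) hK
      _ ≤ 3 * (i : ℝ) / (8 * r) := by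
          rw [div_le_div_iff₀ (by linarith) (by linarith)]
          have h9 : (0 : ℝ) ≤ j := Nat.cast_nonneg _
          nlinarith
  · have h9 : (r : ℝ) = 1 := by
      have : r = 1 := by omega
      rw [this, Nat.cast_one]
    rw [h9]
    have h8 : (min (i : ℝ) (j : ℝ)) ≤ i := min_le_left _ _
    calc (min (i : ℝ) (j : ℝ)) / K₄ ≤ i / 6 := by
          refine div_le_div₀ (Nat.cast_nonneg _) h8 (by norm_num) (by linarith)
      _ ≤ 3 * (i : ℝ) / (8 * 1) := by linarith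

section

variable {p : ℕ} {B B₀ k U Λ C : Type} [Field k] [AddCommGroup U] [Module k U]
    [AddCommGroup Λ] [Module k Λ] [AddCommGroup C] (S : Sys p B B₀ k U Λ C)
variable {F : Type} [Field F] [NumberField F]

open Classical in
/-- The bound without weight. -/
theorem claim (hrep : A2_REP) (hcrt : A2_CRT) (hhlg : A2_HLG) (hexp' : A2_EXP) (hmod : A2_MOD)
    (hfib' : A2_FIB) (hUni : UniB F) (K₀ ℓ : ℕ) (A : ℝ) (hA : 1 ≤ A)
    (hche : ∀ j : ℕ, 1 ≤ j → ∑ q ∈ S.blk j, (1 : ℝ) / S.N q ≤ K₀ / j)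
    (hℓ : ∀ b₀ : B₀, {q | S.bs q = b₀}.Finite ∧ {q | S.bs q = b₀}.ncard ≤ ℓ)
    (𝔪₀ : Ideal (𝓞 F)) (d : ℕ) :
    ∃ K : ℕ, 1 ≤ K ∧ (∀ i, ∑ D ∈ S.mods i, A ^ D.card ≤ K * 2 ^ i * ((i : ℝ) + 1) ^ K) ∧
    ∀ (nn : B → Ideal (𝓞 F)) (Up Lo : Set B)
      (W : B → HeightOneSpectrum (𝓞 F)) (X : B → Ideal (𝓞 F) → ℂ),
    Chs S F 𝔪₀ nn d Up Lo W X →
    ∀ (i j : ℕ) (α : B → ℂ) (β : Finset B → ℂ) (Q : Finset B), 1 ≤ i → 1 ≤ j →
    (∀ q, ‖α q‖ ≤ 1) → (∀ D, ‖β D‖ ≤ A ^ D.card) → Q ⊆ S.blk j → (∀ q ∈ Q, q ∈ Up) →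
    ‖∑ D ∈ JJ S Lo i, β D * ∑ q ∈ Q, α q * ∏ q' ∈ D, X q' (W q).asIdeal‖ ≤
      K * 2 ^ (i + j) * (i + 1) ^ K * (2 : ℝ) ^ (-(min i j : ℝ) / K) := by
  obtain ⟨c, C₁, hc0, hc1, hC₁, hU⟩ := hUni
  obtain ⟨hs, C₃, hC₃, hexp⟩ := hexp' F
  obtain ⟨K₁', hK₁'⟩ := hmod p B B₀ k U Λ C S K₀ hche (A ^ 2) (by positivity)
  obtain ⟨K₃, hK₃, hfib⟩ := hfib' p B B₀ k U Λ C S ℓ hℓ
  -- make `K₁ ≥ 1`
  set K₁ : ℕ := K₁' + 1 with hK₁def
  have hmods : ∀ i : ℕ, ∑ D ∈ S.mods i, (A ^ 2) ^ D.card ≤ K₁ * 2 ^ i * ((i : ℝ) + 1) ^ K₁ := by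
    intro i
    refine (hK₁' i).trans ?_
    have h1 : (K₁' : ℝ) ≤ K₁ := by rw [hK₁def]; push_cast; linarith
    have h2 : ((i : ℝ) + 1) ^ K₁' ≤ ((i : ℝ) + 1) ^ K₁ :=
      pow_le_pow_right₀ (by have : (0:ℝ) ≤ i := Nat.cast_nonneg _; linarith) (by omega)
    gcongr
  have hK₁1 : (1 : ℝ) ≤ K₁ := by rw [hK₁def]; push_cast; linarith [(Nat.cast_nonneg K₁' : (0:ℝ) ≤ K₁')]
  set g : ℕ := Ideal.absNorm 𝔪₀ * 4 ^ d with hg
  set θ : ℝ := 1 + K₁ + 2 * g * C₁ with hθ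
  have hθ1 : 1 ≤ θ := by
    have : (0 : ℝ) ≤ 2 * g * C₁ := by
      have : (0 : ℝ) ≤ g := Nat.cast_nonneg _
      positivity
    linarith
  set C' : ℝ := θ / c with hC'
  have hC'1 : 1 ≤ C' := by
    rw [hC', le_div_iff₀ hc0]
    linarith
  set C₅ : ℝ := K₃ * (C₃ + 1) + K₁ * C₁ + 1 with hC₅
  have hC₅1 : 1 ≤ C₅ := by
    have h1 : 0 ≤ K₃ * (C₃ + 1) := by positivity
    have h2 : 0 ≤ (K₁ : ℝ) * C₁ := by positivity
    linarith
  set C₇ : ℝ := 4 * Real.exp 1 * C₅ * (K₀ + 1) with hC₇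
  have hC₇0 : 0 ≤ C₇ := by positivity
  obtain ⟨K, hK⟩ := exists_nat_ge (max (6 * C') (max (K₁ * √C₇ * (1 + C')) (K₁ + 1)))
  have hKa : 6 * C' ≤ K := (le_max_left _ _).trans hK
  have hKb : K₁ * √C₇ * (1 + C') ≤ K := (le_max_left _ _).trans ((le_max_right _ _).trans hK)
  have hKc : (K₁ : ℝ) + 1 ≤ K := (le_max_right _ _).trans ((le_max_right _ _).trans hK)
  have hKc' : K₁ + 1 ≤ K := by exact_mod_cast hKc
  refine ⟨K, by omega, ?_, ?_⟩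
  · intro i
    calc ∑ D ∈ S.mods i, A ^ D.card ≤ ∑ D ∈ S.mods i, (A ^ 2) ^ D.card := by
          refine Finset.sum_le_sum fun D _ => ?_
          exact pow_le_pow_left₀ (by linarith) (by nlinarith) _
      _ ≤ K₁ * 2 ^ i * ((i : ℝ) + 1) ^ K₁ := hmods i
      _ ≤ _ := by
        have h1 : (K₁ : ℝ) ≤ K := by linarith
        have h2 : ((i : ℝ) + 1) ^ K₁ ≤ ((i : ℝ) + 1) ^ K :=
          pow_le_pow_right₀ (by have : (0:ℝ) ≤ i := Nat.cast_nonneg _; linarith) (by omega)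
        gcongr
  intro nn Up Lo W X h i j α β Q hi hj hα hβ hQb hQU
  set r : ℕ := max 1 ⌈C' * i / (j + 1)⌉₊ with hr
  have hr1 : 1 ≤ r := le_max_left _ _
  have hrR : (1 : ℝ) ≤ r := by exact_mod_cast hr1
  have hiR : (1 : ℝ) ≤ i := by exact_mod_cast hi
  have hj0 : (0 : ℝ) < (j : ℝ) + 1 := by positivity
  set Z : ℝ := ((2 : ℝ) ^ (j + 1)) ^ r with hZdef
  have hZ0 : 0 < Z := by positivity
  set T : ℝ := K₁ * 2 ^ i * ((i : ℝ) + 1) ^ K₁ with hT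
  have hT2 : (2 : ℝ) ^ i ≤ T := by
    have h1 : (1 : ℝ) ≤ ((i : ℝ) + 1) ^ K₁ := one_le_pow₀ (by linarith)
    calc (2 : ℝ) ^ i = 1 * 2 ^ i * 1 := by ring
      _ ≤ K₁ * 2 ^ i * ((i : ℝ) + 1) ^ K₁ := by gcongr
  have hT0 : 0 < T := lt_of_lt_of_le (by positivity) hT2
  have hJ1 : ∑ D ∈ JJ S Lo i, (A ^ D.card) ^ 2 ≤ T := by
    calc ∑ D ∈ JJ S Lo i, (A ^ D.card) ^ 2 ≤ ∑ D ∈ S.mods i, (A ^ D.card) ^ 2 :=
          Finset.sum_le_sum_of_subset_of_nonneg (Finset.filter_subset _ _)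
            fun D _ _ => by positivity
      _ = ∑ D ∈ S.mods i, (A ^ 2) ^ D.card :=
          Finset.sum_congr rfl fun D _ => by rw [← pow_mul, ← pow_mul, mul_comm]
      _ ≤ T := hmods i
  have hJcard : ((JJ S Lo i).card : ℝ) ≤ T := by
    refine le_trans ?_ hJ1
    rw [← nsmul_one]
    refine Finset.card_nsmul_le_sum _ _ _ fun D _ => ?_
    exact one_le_pow₀ (one_le_pow₀ hA)
  -- `|J| E ≤ K₁ C₁ Z`
  have hE : ((JJ S Lo i).card : ℝ) * (C₁ * (g : ℝ) ^ (2 * i * C₁) * Z ^ (1 - c)) ≤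
      K₁ * C₁ * Z := by
    have h1 : T ≤ K₁ * (2 : ℝ) ^ (((1 : ℝ) + K₁) * i) := by
      have h2 : ((i : ℝ) + 1) ≤ 2 ^ i := by
        have : i + 1 ≤ 2 ^ i := Nat.lt_two_pow_self
        exact_mod_cast this
      have h3 : ((i : ℝ) + 1) ^ K₁ ≤ (2 ^ i) ^ K₁ := pow_le_pow_left₀ (by positivity) h2 _
      calc T ≤ K₁ * 2 ^ i * (2 ^ i) ^ K₁ := by rw [hT]; gcongr
        _ = K₁ * (2 : ℝ) ^ (((1 : ℝ) + K₁) * i) := by
          rw [mul_assoc, ← pow_mul, ← pow_add, ← Real.rpow_natCast]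
          congr 2
          push_cast
          ring
    have h4 : (g : ℝ) ^ (2 * i * C₁) ≤ (2 : ℝ) ^ (2 * g * C₁ * i) := by
      have h5 : (g : ℝ) ≤ (2 : ℝ) ^ (g : ℝ) := by
        rw [Real.rpow_natCast]
        exact_mod_cast Nat.lt_two_pow_self.le
      calc (g : ℝ) ^ (2 * i * C₁) ≤ ((2 : ℝ) ^ (g : ℝ)) ^ (2 * i * C₁) :=
            Real.rpow_le_rpow (Nat.cast_nonneg _) h5 (by positivity)
        _ = _ := by
          rw [← Real.rpow_mul (by norm_num)]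
          ring_nf
    have h6 : (2 : ℝ) ^ (θ * i) ≤ Z ^ c := by
      have h7 : Z = (2 : ℝ) ^ (((j : ℝ) + 1) * r) := by
        rw [hZdef, ← pow_mul, ← Real.rpow_natCast]
        push_cast
        rfl
      rw [h7, ← Real.rpow_mul (by norm_num)]
      refine Real.rpow_le_rpow_of_exponent_le (by norm_num) ?_
      have h8 : C' * i / (j + 1) ≤ r := by
        refine (Nat.le_ceil _).trans ?_
        exact Nat.cast_le.2 (le_max_right _ _)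
      rw [div_le_iff₀ hj0, hC', div_mul_eq_mul_div, div_le_iff₀ hc0] at h8
      linarith
    have h9 : Z ^ c * Z ^ (1 - c) = Z := by
      rw [← Real.rpow_add hZ0]
      simp
    have hC₁0 : 0 < C₁ := by linarith
    calc ((JJ S Lo i).card : ℝ) * (C₁ * (g : ℝ) ^ (2 * i * C₁) * Z ^ (1 - c))
        ≤ (K₁ * (2 : ℝ) ^ (((1 : ℝ) + K₁) * i)) *
          (C₁ * (2 : ℝ) ^ (2 * g * C₁ * i) * Z ^ (1 - c)) := by
          gcongr
          exact hJcard.trans h1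
      _ = K₁ * C₁ * (((2 : ℝ) ^ (((1 : ℝ) + K₁) * i) * (2 : ℝ) ^ (2 * g * C₁ * i)) *
          Z ^ (1 - c)) := by ring
      _ = K₁ * C₁ * ((2 : ℝ) ^ (θ * i) * Z ^ (1 - c)) := by
          rw [← Real.rpow_add (by norm_num)]
          congr 3
          rw [hθ]
          ring
      _ ≤ K₁ * C₁ * (Z ^ c * Z ^ (1 - c)) := by gcongr
      _ = _ := by rw [h9]
  -- the moment
  have hQc : (Q.card : ℝ) ≤ 2 ^ (j + 1) * (K₀ + 1) := by
    have h1 : (Q.card : ℝ) ≤ (S.blk j).card := by exact_mod_cast Finset.card_le_card hQb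
    have h2 := card_blk S hche hj
    have h3 : (2 : ℝ) ^ (j + 1) * K₀ ≤ 2 ^ (j + 1) * (K₀ + 1) := by gcongr; linarith
    linarith
  have hmom := moment S hrep hcrt h hC₁ hU hC₃ hs hexp hK₃ (fun i D 𝒟 h1 h2 =>
    hfib i D 𝒟 h1 fun D' hD' => ⟨(h2 D' hD').1, by
      have h3 := (h2 D' hD').2
      rw [← Finset.coe_image, ← Finset.coe_image] at h3
      exact_mod_cast h3⟩) (j := j) (r := r) hi Q
    (fun q hq => ⟨hQU q hq, (N_lt S (hQb hq)).le⟩) α hα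
  set Y2 : ℝ := Real.exp 1 * C₅ * (2 : ℝ) ^ (j + 1) * r * (2 ^ (j + 1) * (K₀ + 1)) with hY2
  have hY20 : 0 ≤ Y2 := by positivity
  have hM : ∑ D ∈ JJ S Lo i, ‖∑ q ∈ Q, α q * ∏ q' ∈ D, X q' (W q).asIdeal‖ ^ (2 * r) ≤
      (2 : ℝ) ^ ((i : ℝ) / 4) * Y2 ^ r := by
    refine hmom.trans ?_
    rw [← hg, ← hZdef]
    have h1 : (1 : ℝ) ≤ (2 : ℝ) ^ ((i : ℝ) / 4) := Real.one_le_rpow (by norm_num) (by positivity)
    have h2 : K₃ * (2 : ℝ) ^ ((i : ℝ) / 4) * ((C₃ + 1) * Z) +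
        (JJ S Lo i).card * (C₁ * (g : ℝ) ^ (2 * i * C₁) * Z ^ (1 - c)) ≤
        C₅ * (2 : ℝ) ^ ((i : ℝ) / 4) * Z := by
      have h3 : K₁ * C₁ * Z ≤ K₁ * C₁ * Z * (2 : ℝ) ^ ((i : ℝ) / 4) :=
        le_mul_of_one_le_right (by positivity) h1
      have h4 : 0 ≤ (2 : ℝ) ^ ((i : ℝ) / 4) * Z := by positivity
      rw [hC₅]
      nlinarith
    have h5 : ((r.factorial : ℕ) : ℝ) ≤ (r : ℝ) ^ r := by exact_mod_cast Nat.factorial_le_pow r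
    have h6 : Real.exp 1 * C₅ ≤ (Real.exp 1 * C₅) ^ r := by
      refine le_self_pow₀ ?_ (by omega)
      have : 1 ≤ Real.exp 1 := Real.one_le_exp (by norm_num)
      nlinarith
    calc Real.exp 1 * (K₃ * (2 : ℝ) ^ ((i : ℝ) / 4) * ((C₃ + 1) * Z) +
        (JJ S Lo i).card * (C₁ * (g : ℝ) ^ (2 * i * C₁) * Z ^ (1 - c))) * r.factorial *
          (Q.card : ℝ) ^ r
        ≤ Real.exp 1 * (C₅ * (2 : ℝ) ^ ((i : ℝ) / 4) * Z) * (r : ℝ) ^ r *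
          (2 ^ (j + 1) * ((K₀ : ℝ) + 1)) ^ r := by gcongr
      _ = (2 : ℝ) ^ ((i : ℝ) / 4) * ((Real.exp 1 * C₅) * (Z * (r : ℝ) ^ r *
          (2 ^ (j + 1) * ((K₀ : ℝ) + 1)) ^ r)) := by ring
      _ ≤ (2 : ℝ) ^ ((i : ℝ) / 4) * ((Real.exp 1 * C₅) ^ r * (Z * (r : ℝ) ^ r *
          (2 ^ (j + 1) * ((K₀ : ℝ) + 1)) ^ r)) := by gcongr
      _ = _ := by
        rw [hZdef, hY2]
        simp only [mul_pow]
        ring
  -- Hoelder
  have hhl := hhlg {D // D ∈ JJ S Lo i} (fun D => β D.1)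
    (fun D => ∑ q ∈ Q, α q * ∏ q' ∈ D.1, X q' (W q).asIdeal) (fun D => A ^ D.1.card) r T
    ((2 : ℝ) ^ ((i : ℝ) / 4) * Y2 ^ r) hr1
    (fun D => ⟨one_le_pow₀ hA, hβ D.1⟩)
    (by rw [Finset.sum_coe_sort (JJ S Lo i) (fun D => (A ^ D.card) ^ 2)]; exact hJ1)
    (by rw [Finset.sum_coe_sort (JJ S Lo i)
      (fun D => ‖∑ q ∈ Q, α q * ∏ q' ∈ D, X q' (W q).asIdeal‖ ^ (2 * r))]; exact hM)
  rw [Finset.sum_coe_sort (JJ S Lo i)
      (fun D => β D * ∑ q ∈ Q, α q * ∏ q' ∈ D, X q' (W q).asIdeal)] at hhl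
  refine hhl.trans ?_
  have hY2' : Y2 = (2 ^ j * √(C₇ * r)) ^ 2 := by
    rw [mul_pow, Real.sq_sqrt (by positivity), hY2, hC₇]
    ring
  have hM2 : ((2 : ℝ) ^ ((i : ℝ) / 4) * Y2 ^ r) ^ (1 / (2 * (r : ℝ))) =
      (2 : ℝ) ^ ((i : ℝ) / (8 * r)) * (2 ^ j * √(C₇ * r)) := by
    rw [Real.mul_rpow (by positivity) (by positivity), hY2', ← pow_mul, ← Real.rpow_mul (by norm_num),
      ← Real.rpow_natCast (2 ^ j * √(C₇ * r)), ← Real.rpow_mul (by positivity)]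
    congr 1
    · congr 1
      field_simp
      ring
    · push_cast
      rw [mul_one_div_cancel (by positivity), Real.rpow_one]
  have hTr : T ^ (1 - 1 / (2 * (r : ℝ))) ≤ T * (2 : ℝ) ^ (-((i : ℝ) / (2 * r))) := by
    rw [sub_eq_add_neg, Real.rpow_add hT0, Real.rpow_one]
    refine mul_le_mul_of_nonneg_left ?_ hT0.le
    calc T ^ (-(1 / (2 * (r : ℝ)))) ≤ ((2 : ℝ) ^ i) ^ (-(1 / (2 * (r : ℝ)))) := by
          refine Real.rpow_le_rpow_of_nonpos (by positivity) hT2 ?_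
          rw [neg_nonpos]
          positivity
      _ = _ := by
        rw [← Real.rpow_natCast, ← Real.rpow_mul (by norm_num)]
        congr 1
        field_simp
  have hnum := num_bound hC'1 hKa (i := i) (j := j) hi hr
  rw [hM2]
  calc T ^ (1 - 1 / (2 * (r : ℝ))) * ((2 : ℝ) ^ ((i : ℝ) / (8 * r)) * (2 ^ j * √(C₇ * r)))
      ≤ (T * (2 : ℝ) ^ (-((i : ℝ) / (2 * r)))) *
        ((2 : ℝ) ^ ((i : ℝ) / (8 * r)) * (2 ^ j * √(C₇ * r))) := by gcongr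
    _ = T * 2 ^ j * √C₇ * (√r * ((2 : ℝ) ^ (-((i : ℝ) / (2 * r))) *
        (2 : ℝ) ^ ((i : ℝ) / (8 * r)))) := by
        rw [Real.sqrt_mul hC₇0]
        ring
    _ = T * 2 ^ j * √C₇ * (√r * (2 : ℝ) ^ (-(3 * (i : ℝ) / (8 * r)))) := by
        rw [← Real.rpow_add (by norm_num)]
        congr 3
        field_simp
        ring
    _ ≤ T * 2 ^ j * √C₇ * ((1 + C') * (i + 1) * (2 : ℝ) ^ (-(min i j : ℝ) / K)) := by gcongr
    _ = (K₁ * √C₇ * (1 + C')) * 2 ^ (i + j) * ((i : ℝ) + 1) ^ (K₁ + 1) *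
        (2 : ℝ) ^ (-(min i j : ℝ) / K) := by
        rw [hT]
        ring
    _ ≤ _ := by
        have h2 : ((i : ℝ) + 1) ^ (K₁ + 1) ≤ ((i : ℝ) + 1) ^ K :=
          pow_le_pow_right₀ (by linarith) hKc'
        gcongr

end

end Pool.Agent.Helper51.PP
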