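import Pool.Agent.Helper51.PP.BLfin
import Pool.Agent.Helper77.PPS.GoalsH
import Pool.Agent.Helper11.PP.GoalsE
import Pool.Agent.Helper42.PP.Goals2
import Pool.Agent.Helper42.RD.EXA
import Pool.Agent.Helper90.LE.CYC

/-!
# Project PP: assembly of `HYP` (all analytic hypotheses of the moment theorem for the systems of part B)
-/

namespace Pool.Agent.Helper51.PP

open NumberField Polynomial Module IsDedekindDomain
open Pool.Agent.Helper51.RP Pool.Agent.Helper42.RD Pool.Agent.Helper42.PP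
open Pool.Agent.Helper51.SigLeo (IwasawaLog)
open Pool.Agent.Helper17.PP (Sys)
open Pool.Agent.Helper76.PP (B_BLU B_BLH B_SM B_KUM B_KAP psK)
open Pool.Agent.Helper77.PPS (N_HYP N_LOW H_G gK)
open Pool.Agent.Helper94.PP (A1_UNB)

theorem locS_one (p : ℕ) {F : Type} [Field F] [NumberField F] (Z : Set (HeightOneSpectrum (𝓞 F)))
    (x : Fˣ) : LocS p Z (x / x) := by
  refine ⟨1, fun w _ => ?_⟩
  rw [div_self']
  simp

/-- HYP from the statements of the parts A and B. -/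
theorem hyp (hN : N_HYP) (hL : N_LOW) (hG : H_G) (hSM : B_SM) (hKUM : B_KUM) (hKAP : B_KAP)
    (hBLU : B_BLU) (hBLH : B_BLH) (hUNB : A1_UNB) (hLAB : P_LAB) :
    Pool.Agent.Helper11.PP.HYP := by
  intro p hp K M K₁ M₁ _ _ tcK _ _ _ _ _ _ _ _ _ _ _ st1 st2 gM gKK gMK ε hT m δ ζ Φ P hP hδ hm
    hTor hirr hfin B
  classical
  have tc1 : IsTotallyComplex K₁ := totallyComplex_of (K := K)
  have tc2 : IsTotallyComplex M₁ := totallyComplex_of (K := K)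
  set κ : ℝ := ((p : ℝ) - 1) / finrank K K₁ with hκ
  have hκ1 : 1 ≤ κ := by
    have h1 := (Pool.Agent.Helper90.LE.l_cyc p K K₁ ε ⟨hT.prim, gKK, hT.gen⟩).1
    have h2 : 0 < finrank K K₁ := finrank_pos
    have hp2 : 2 ≤ p := hp.out.two_le
    have h3 : finrank K K₁ ≤ p - 1 := Nat.le_of_dvd (by omega) h1
    rw [hκ, le_div_iff₀ (by exact_mod_cast h2), one_mul]
    have h4 : ((finrank K K₁ : ℕ) : ℝ) ≤ ((p - 1 : ℕ) : ℝ) := by exact_mod_cast h3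
    rw [Nat.cast_sub (by omega), Nat.cast_one] at h4
    exact h4
  obtain ⟨hG1, hG2, hG3, -⟩ := hG κ hκ1
  have h2κ : (1 : ℝ) ≤ 2 ^ (κ - 1) := Real.one_le_rpow (by norm_num) (by linarith)
  refine ⟨gK κ, 2 ^ (κ - 1), ⟨hG1, fun Y X h => ?_, fun X _ => hG3 X⟩, ?_⟩
  · calc gK κ Y ≤ gK κ X := hG2 Y X h
      _ ≤ 2 ^ (κ - 1) * gK κ X := le_mul_of_one_le_left (by linarith [hG1 X]) h2κ
  intro L T aτ E hom
  obtain ⟨-, -, ⟨tr, htr⟩, ⟨ψ₁, hψ₁⟩, hK⟩ := hKAP p ℂ_[p] m ζ Φ P hP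
  obtain ⟨-, hK2⟩ := hK tr htr
  obtain ⟨-, -, hψne⟩ := hK2 ψ₁ hψ₁
  obtain ⟨Ka, hKa⟩ := hN p ℂ_[p] K M K₁ M₁ ε δ P B L T aτ E hT ((Fintype.card (AdjoinRoot P) : ℝ) + 4)
  obtain ⟨Kb, hKb1, hKb⟩ := hSM p ℂ_[p] K M K₁ M₁ ε hT m δ ζ Φ P hP hδ hm B L T aτ E tr ψ₁ htr hψ₁
  have hkum := hKUM p ℂ_[p] K M K₁ M₁ ε hT m δ ζ Φ P hP hδ hm B L T aτ E
  have hche := (hKa Ka le_rfl).che
  obtain ⟨Kc, hKc⟩ := b_bl1 hBLU p ℂ_[p] K M K₁ M₁ ε hT m δ ζ Φ P hP hδ hm B L T aτ E tr ψ₁ htr hψ₁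
    (hUNB M₁) Ka hche
  obtain ⟨Kd, hKd⟩ := b_bl2 hBLH p ℂ_[p] K M K₁ M₁ ε hT m δ ζ Φ P hP hδ hm B L T aτ E ψ₁ hψ₁
    (hUNB K₁) Ka hche
  set K' : ℕ := max (max Ka Kb) (max Kc Kd) with hK'
  have h1 : Ka ≤ K' := (le_max_left _ _).trans (le_max_left _ _)
  have h2 : Kb ≤ K' := (le_max_right _ _).trans (le_max_left _ _)
  have h3 : Kc ≤ K' := (le_max_left _ _).trans (le_max_right _ _)
  have h4 : Kd ≤ K' := (le_max_right _ _).trans (le_max_right _ _)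
  have hSV := hKa K' h1
  refine ⟨psK tr ψ₁, ψ₁, K', ?_, ?_⟩
  · exact {
      one_le := hSV.one_le
      ψ_ne := hψne
      ψ₁_ne := hψ₁
      che := hSV.che
      g_one := hSV.g_one
      g_mono := hSV.g_mono
      ht := hSV.ht
      mers := hSV.mers
      mern := hSV.mern
      sm := fun D y χ n a1 a2 a3 a4 a5 => by
        have h := hKb K' h2 D y χ n a1 a2 a3 a4 a5
        convert h
      kum := hkum
      bl₁ := hKc K' h3
      bl₂ := hKd K' h4 }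
  · have hsit : Sit p ℂ_[p] K M K₁ M₁ ε δ P := by
      refine ⟨tcK, st1, st2, gM, gKK, gMK, hT, ⟨ζ, Φ, ?_⟩, ?_, hTor⟩
      · rw [hm]
        exact hP
      · rw [hδ, hm]
    have hlab := (hLAB p ℂ_[p] K M K₁ M₁ ε δ P hsit L T B aτ E hom).1 aτ hom
    exact hL p ℂ_[p] K M K₁ M₁ ε δ P B L T aτ E ⟨_, hlab.2.2.2 (locS_one p _ aτ)⟩

end Pool.Agent.Helper51.PP
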