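import Pool.Agent.Helper51.PP.GoalsA2

/-!
# Project PP, packet A2-LS: the abstract large sieve
-/

namespace Pool.Agent.Helper51.PP

open ComplexConjugate

/-- Packet A2-LS. -/
theorem a2_ls : A2_LS := by
  intro I J _ w χ H E κ hw hsum hH hE hκ hχ hoff S a hS
  classical
  set T : J → ℂ := fun j => ∑ n ∈ S, a n * χ j n with hT
  set A : ℝ := ∑ j, ‖T j‖ ^ 2 with hA
  set B : ℝ := ∑ n ∈ S, ‖a n‖ ^ 2 with hB
  set G : I → ℂ := fun n => ∑ j, conj (T j) * χ j n with hG
  have hA0 : 0 ≤ A := Finset.sum_nonneg fun j _ => by positivity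
  have hB0 : 0 ≤ B := Finset.sum_nonneg fun j _ => by positivity
  have hH0 : 0 ≤ H := le_trans (tsum_nonneg hw) hH
  -- summability of the products
  have hsp : ∀ j j', Summable fun n => χ j n * conj (χ j' n) * (w n : ℂ) := by
    intro j j'
    refine Summable.of_norm_bounded hsum fun n => ?_
    rw [norm_mul, norm_mul, RCLike.norm_conj, Complex.norm_real, Real.norm_of_nonneg (hw n)]
    have h1 := mul_le_mul (hχ j n) (hχ j' n) (norm_nonneg _) zero_le_one
    calc ‖χ j n‖ * ‖χ j' n‖ * w n ≤ 1 * 1 * w n := mul_le_mul_of_nonneg_right h1 (hw n)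
      _ = w n := by ring
  -- `A = ∑ a G`
  have e1 : (A : ℂ) = ∑ n ∈ S, a n * G n := by
    have e2 : ∀ j, ((‖T j‖ ^ 2 : ℝ) : ℂ) = conj (T j) * T j := by
      intro j
      rw [mul_comm, Complex.mul_conj, Complex.normSq_eq_norm_sq]
    rw [hA, Complex.ofReal_sum]
    simp_rw [e2]
    calc ∑ j, conj (T j) * T j = ∑ j, ∑ n ∈ S, conj (T j) * (a n * χ j n) := by
          refine Finset.sum_congr rfl fun j _ => ?_
          conv_lhs => rw [hT]
          rw [Finset.mul_sum]
      _ = ∑ n ∈ S, ∑ j, conj (T j) * (a n * χ j n) := Finset.sum_comm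
      _ = ∑ n ∈ S, a n * G n := by
          refine Finset.sum_congr rfl fun n _ => ?_
          rw [hG, Finset.mul_sum]
          exact Finset.sum_congr rfl fun j _ => by ring
  -- Cauchy-Schwarz
  have h1 : A ^ 2 ≤ B * ∑ n ∈ S, ‖G n‖ ^ 2 := by
    have h2 : A ≤ ∑ n ∈ S, ‖a n‖ * ‖G n‖ := by
      calc A = ‖(A : ℂ)‖ := by rw [Complex.norm_real, Real.norm_of_nonneg hA0]
        _ = ‖∑ n ∈ S, a n * G n‖ := by rw [e1]
        _ ≤ ∑ n ∈ S, ‖a n * G n‖ := norm_sum_le _ _
        _ = _ := Finset.sum_congr rfl fun n _ => norm_mul _ _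
    calc A ^ 2 ≤ (∑ n ∈ S, ‖a n‖ * ‖G n‖) ^ 2 := pow_le_pow_left₀ hA0 h2 2
      _ ≤ _ := Finset.sum_mul_sq_le_sq_mul_sq S (fun n => ‖a n‖) (fun n => ‖G n‖)
  -- the quadratic form
  have hGs : Summable fun n => w n * ‖G n‖ ^ 2 := by
    have h3 : ∀ n, ‖G n‖ ^ 2 ≤ (∑ j, ‖T j‖) ^ 2 := by
      intro n
      refine pow_le_pow_left₀ (norm_nonneg _) ?_ 2
      refine (norm_sum_le _ _).trans (Finset.sum_le_sum fun j _ => ?_)
      rw [norm_mul, RCLike.norm_conj]
      exact mul_le_of_le_one_right (norm_nonneg _) (hχ j n)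
    refine Summable.of_nonneg_of_le (fun n => mul_nonneg (hw n) (by positivity))
      (fun n => mul_le_mul_of_nonneg_left (h3 n) (hw n)) ?_
    exact hsum.mul_right _
  have h4 : ∑' n, w n * ‖G n‖ ^ 2 ≤ (H + Fintype.card J * E) * A := by
    have e3 : ((∑' n, w n * ‖G n‖ ^ 2 : ℝ) : ℂ) =
        ∑ j, ∑ j', conj (T j) * T j' * ∑' n, χ j n * conj (χ j' n) * (w n : ℂ) := by
      rw [Complex.ofReal_tsum]
      have e4 : ∀ n, ((w n * ‖G n‖ ^ 2 : ℝ) : ℂ) =
          ∑ j, ∑ j', conj (T j) * T j' * (χ j n * conj (χ j' n) * (w n : ℂ)) := by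
        intro n
        have e5 : ((‖G n‖ ^ 2 : ℝ) : ℂ) = G n * conj (G n) := by
          rw [Complex.mul_conj, Complex.normSq_eq_norm_sq]
        rw [Complex.ofReal_mul, e5, hG]
        simp only [map_sum, map_mul, Complex.conj_conj]
        rw [Finset.sum_mul_sum, Finset.mul_sum]
        refine Finset.sum_congr rfl fun j _ => ?_
        rw [Finset.mul_sum]
        exact Finset.sum_congr rfl fun j' _ => by ring
      simp_rw [e4]
      rw [Summable.tsum_finsetSum (fun j _ => summable_sum fun j' _ => (hsp j j').mul_left _)]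
      refine Finset.sum_congr rfl fun j _ => ?_
      rw [Summable.tsum_finsetSum (fun j' _ => (hsp j j').mul_left _)]
      exact Finset.sum_congr rfl fun j' _ => tsum_mul_left
    have h5 : ∑' n, w n * ‖G n‖ ^ 2 ≤
        ∑ j, ∑ j', ‖T j‖ * ‖T j'‖ * (if j = j' then H else E) := by
      have h6 : 0 ≤ ∑' n, w n * ‖G n‖ ^ 2 :=
        tsum_nonneg fun n => mul_nonneg (hw n) (by positivity)
      calc ∑' n, w n * ‖G n‖ ^ 2 = ‖((∑' n, w n * ‖G n‖ ^ 2 : ℝ) : ℂ)‖ := by
            rw [Complex.norm_real, Real.norm_of_nonneg h6]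
        _ ≤ _ := by
          rw [e3]
          refine (norm_sum_le _ _).trans (Finset.sum_le_sum fun j _ => ?_)
          refine (norm_sum_le _ _).trans (Finset.sum_le_sum fun j' _ => ?_)
          rw [norm_mul, norm_mul, RCLike.norm_conj]
          refine mul_le_mul_of_nonneg_left ?_ (by positivity)
          split_ifs with h
          · subst h
            refine (norm_tsum_le_tsum_norm (hsp j j).norm).trans (le_trans ?_ hH)
            refine Summable.tsum_le_tsum (fun n => ?_) (hsp j j).norm hsum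
            rw [norm_mul, norm_mul, RCLike.norm_conj, Complex.norm_real, Real.norm_of_nonneg (hw n)]
            have h1 := mul_le_mul (hχ j n) (hχ j n) (norm_nonneg _) zero_le_one
            calc ‖χ j n‖ * ‖χ j n‖ * w n ≤ 1 * 1 * w n := mul_le_mul_of_nonneg_right h1 (hw n)
              _ = w n := by ring
          · exact hoff j j' h
    have h7 : ∑ j, ∑ j', ‖T j‖ * ‖T j'‖ * (if j = j' then H else E) ≤
        ∑ j, ∑ j', (‖T j‖ * ‖T j'‖ * (if j = j' then H else 0) + ‖T j‖ * ‖T j'‖ * E) := by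
      refine Finset.sum_le_sum fun j _ => Finset.sum_le_sum fun j' _ => ?_
      rw [← mul_add]
      refine mul_le_mul_of_nonneg_left ?_ (by positivity)
      split_ifs <;> linarith
    have h8 : ∑ j, ∑ j', (‖T j‖ * ‖T j'‖ * (if j = j' then H else 0) + ‖T j‖ * ‖T j'‖ * E) =
        H * A + E * (∑ j, ‖T j‖) ^ 2 := by
      have e6 : ∀ j, ∑ j', (‖T j‖ * ‖T j'‖ * (if j = j' then H else 0) + ‖T j‖ * ‖T j'‖ * E) =
          H * ‖T j‖ ^ 2 + E * (‖T j‖ * ∑ j', ‖T j'‖) := by
        intro j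
        rw [Finset.sum_add_distrib]
        congr 1
        · simp only [mul_ite, mul_zero]
          rw [Finset.sum_ite_eq]
          simp only [Finset.mem_univ, if_true]
          ring
        · rw [Finset.mul_sum, Finset.mul_sum]
          exact Finset.sum_congr rfl fun j' _ => by ring
      rw [Finset.sum_congr rfl fun j _ => e6 j, Finset.sum_add_distrib, ← Finset.mul_sum,
        ← Finset.mul_sum, ← Finset.sum_mul, sq (∑ j, ‖T j‖)]
    have h9 : (∑ j, ‖T j‖) ^ 2 ≤ Fintype.card J * A := by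
      have := Finset.sum_mul_sq_le_sq_mul_sq Finset.univ (fun _ : J => (1 : ℝ)) (fun j => ‖T j‖)
      simpa using this
    calc ∑' n, w n * ‖G n‖ ^ 2 ≤ H * A + E * (∑ j, ‖T j‖) ^ 2 := by
          rw [← h8]
          exact h5.trans h7
      _ ≤ H * A + E * (Fintype.card J * A) := by gcongr
      _ = _ := by ring
  have h10 : ∑ n ∈ S, ‖G n‖ ^ 2 ≤ κ * ((H + Fintype.card J * E) * A) := by
    calc ∑ n ∈ S, ‖G n‖ ^ 2 ≤ ∑ n ∈ S, κ * (w n * ‖G n‖ ^ 2) := by
          refine Finset.sum_le_sum fun n hn => ?_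
          have := mul_le_mul_of_nonneg_right (hS n hn) (by positivity : (0 : ℝ) ≤ ‖G n‖ ^ 2)
          linarith
      _ = κ * ∑ n ∈ S, w n * ‖G n‖ ^ 2 := by rw [Finset.mul_sum]
      _ ≤ κ * ∑' n, w n * ‖G n‖ ^ 2 := by
          refine mul_le_mul_of_nonneg_left ?_ hκ
          exact hGs.sum_le_tsum S fun n _ => mul_nonneg (hw n) (by positivity)
      _ ≤ _ := mul_le_mul_of_nonneg_left h4 hκ
  rcases hA0.eq_or_lt with h | h
  · rw [← h]
    positivity
  · have h11 : A * A ≤ (κ * (H + Fintype.card J * E) * B) * A := by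
      calc A * A = A ^ 2 := by ring
        _ ≤ B * ∑ n ∈ S, ‖G n‖ ^ 2 := h1
        _ ≤ B * (κ * ((H + Fintype.card J * E) * A)) := mul_le_mul_of_nonneg_left h10 hB0
        _ = _ := by ring
    exact le_of_mul_le_mul_right h11 h

end Pool.Agent.Helper51.PP
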