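import Pool.Agent.Helper51.PP.LS

/-!
# Project PP, packet A2-POW: moments of sums over primes
-/

namespace Pool.Agent.Helper51.PP

open NumberField IsDedekindDomain

/-- Packet A2-POW. -/
theorem a2_pow (hrep : A2_REP) : A2_POW := by
  intro F _ _ J _ w χ H E κ r Q a hw hsum hH hE hκ hχ hone hmul hoff hQ ha
  classical
  set P : Finset (Fin r → HeightOneSpectrum (𝓞 F)) := Fintype.piFinset fun _ => Q with hP
  set π : (Fin r → HeightOneSpectrum (𝓞 F)) → Ideal (𝓞 F) := fun v => ∏ i, (v i).asIdeal with hπ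
  set S : Finset (Ideal (𝓞 F)) := P.image π with hS
  set b : Ideal (𝓞 F) → ℂ := fun n => ∑ v ∈ P.filter (fun v => π v = n), ∏ i, a (v i) with hb
  have hcard : (P.card : ℝ) = (Q.card : ℝ) ^ r := by
    rw [hP, Fintype.card_piFinset]
    simp
  have hmp : ∀ j (v : Fin r → HeightOneSpectrum (𝓞 F)),
      χ j (π v) = ∏ i, χ j (v i).asIdeal := by
    intro j v
    have := map_prod (⟨⟨χ j, by rw [Ideal.one_eq_top]; exact hone j⟩, hmul j⟩ :
      Ideal (𝓞 F) →* ℂ) (fun i => (v i).asIdeal) Finset.univ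
    exact this
  -- the `r`-th power
  have h1 : ∀ j, (∑ q ∈ Q, a q * χ j q.asIdeal) ^ r = ∑ n ∈ S, b n * χ j n := by
    intro j
    have e1 : (∑ q ∈ Q, a q * χ j q.asIdeal) ^ r =
        ∑ v ∈ P, ∏ i, (a (v i) * χ j (v i).asIdeal) := by
      rw [hP, ← Finset.prod_univ_sum (fun _ : Fin r => Q) (fun _ q => a q * χ j q.asIdeal)]
      simp
    rw [e1, ← Finset.sum_fiberwise_of_maps_to (s := P) (t := S) (g := π)
      (fun v hv => Finset.mem_image_of_mem π hv)]
    refine Finset.sum_congr rfl fun n _ => ?_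
    rw [hb, Finset.sum_mul]
    refine Finset.sum_congr rfl fun v hv => ?_
    rw [Finset.prod_mul_distrib, ← hmp j v, (Finset.mem_filter.1 hv).2]
  -- bounds for the coefficients
  have hterm : ∀ v ∈ P, ‖∏ i, a (v i)‖ ≤ 1 := by
    intro v hv
    rw [norm_prod]
    exact Finset.prod_le_one (fun i _ => norm_nonneg _)
      fun i _ => ha _ (Fintype.mem_piFinset.1 hv i)
  have h2 : ∀ n, ‖b n‖ ≤ (P.filter (fun v => π v = n)).card := by
    intro n
    rw [hb]
    refine (norm_sum_le _ _).trans ?_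
    calc ∑ v ∈ P.filter (fun v => π v = n), ‖∏ i, a (v i)‖
        ≤ ∑ v ∈ P.filter (fun v => π v = n), (1 : ℝ) :=
          Finset.sum_le_sum fun v hv => hterm v (Finset.mem_filter.1 hv).1
      _ = _ := by simp
  have h3 : ∀ n, ‖b n‖ ≤ r.factorial := by
    intro n
    refine (h2 n).trans ?_
    have h4 := hrep F Q r n
    have e2 : {v : Fin r → HeightOneSpectrum (𝓞 F) | (∀ i, v i ∈ Q) ∧ ∏ i, (v i).asIdeal = n} =
        ((P.filter (fun v => π v = n) : Finset _) : Set (Fin r → HeightOneSpectrum (𝓞 F))) := by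
      ext v
      simp [hP, hπ, Fintype.mem_piFinset]
    rw [e2, Set.ncard_coe_finset] at h4
    exact_mod_cast h4
  have h5 : ∑ n ∈ S, ‖b n‖ ^ 2 ≤ r.factorial * (Q.card : ℝ) ^ r := by
    calc ∑ n ∈ S, ‖b n‖ ^ 2 ≤ ∑ n ∈ S, (r.factorial : ℝ) *
          ((P.filter (fun v => π v = n)).card : ℝ) := by
          refine Finset.sum_le_sum fun n _ => ?_
          rw [sq]
          exact mul_le_mul (h3 n) (h2 n) (norm_nonneg _) (by positivity)
      _ = (r.factorial : ℝ) * ∑ n ∈ S, ((P.filter (fun v => π v = n)).card : ℝ) := by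
          rw [Finset.mul_sum]
      _ = (r.factorial : ℝ) * (P.card : ℝ) := by
          congr 1
          rw [Finset.card_eq_sum_card_fiberwise (s := P) (t := S) (f := π)
            (fun v hv => Finset.mem_image_of_mem π hv)]
          push_cast
          rfl
      _ = _ := by rw [hcard]
  have h6 := a2_ls (Ideal (𝓞 F)) J w χ H E κ hw hsum hH hE hκ hχ hoff S b (by
    intro n hn
    obtain ⟨v, hv, rfl⟩ := Finset.mem_image.1 hn
    exact hQ v fun i => Fintype.mem_piFinset.1 hv i)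
  have hH0 : 0 ≤ H := le_trans (tsum_nonneg hw) hH
  calc ∑ j, ‖∑ q ∈ Q, a q * χ j q.asIdeal‖ ^ (2 * r) = ∑ j, ‖∑ n ∈ S, b n * χ j n‖ ^ 2 := by
        refine Finset.sum_congr rfl fun j _ => ?_
        rw [← h1 j, norm_pow, ← pow_mul, mul_comm]
    _ ≤ κ * (H + Fintype.card J * E) * ∑ n ∈ S, ‖b n‖ ^ 2 := h6
    _ ≤ κ * (H + Fintype.card J * E) * (r.factorial * (Q.card : ℝ) ^ r) :=
        mul_le_mul_of_nonneg_left h5 (by positivity)
    _ = _ := by ring

end Pool.Agent.Helper51.PP
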